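import Pool.Agent.Lib.Pc0b458t.Defs

/-!
Cycle classes with real coefficients, and the defect involution.
-/

open TensorProduct

universe u

namespace Pc0b458t

/-- cycle classes modulo numerical equivalence with real coefficients -/
def ZR (T : Cycles.{u}) (A : T.Obj) : Type u := ℝ ⊗[ℚ] T.Z A

section Real

variable {T : Cycles.{u}} {A B : T.Obj}

noncomputable instance : CommRing (ZR T A) := (inferInstance : CommRing (ℝ ⊗[ℚ] T.Z A))
noncomputable instance : Algebra ℝ (ZR T A) := (inferInstance : Algebra ℝ (ℝ ⊗[ℚ] T.Z A))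

/-- a class with rational coefficients as a class with real coefficients -/
noncomputable def toR (x : T.Z A) : ZR T A := (1 : ℝ) ⊗ₜ x

/-- extension of scalars of a linear map -/
noncomputable def Op.ext (u : Op T A B) : ZR T A →ₗ[ℝ] ZR T B :=
  LinearMap.baseChange ℝ (show T.Z A →ₗ[ℚ] T.Z B from u)

/-- real classes of codimension `n` -/
noncomputable def codR (T : Cycles.{u}) (A : T.Obj) (n : ℕ) : Submodule ℝ (ZR T A) :=
  Submodule.baseChange ℝ ((T.pol A).cod n)

/-- the Lefschetz form `deg (x * star y)` -/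
noncomputable def PolRing.form {Z : Type u} [CommRing Z] [Algebra ℚ Z] (R : PolRing Z) :
    LinearMap.BilinForm ℚ Z :=
  (LinearMap.mul ℚ Z).compr₂ R.deg |>.compl₂ R.star

/-- the real extension of the Lefschetz form -/
noncomputable def formR (T : Cycles.{u}) (A : T.Obj) : LinearMap.BilinForm ℝ (ZR T A) :=
  LinearMap.BilinForm.baseChange ℝ (T.pol A).form

end Real

/-- Q1 for the polarised abelian variety `A`: positivity in all codimensions `n ≤ g/2` -/
def Q1 (T : Cycles.{u}) (A : T.Obj) : Prop := ∀ n, 2 * n ≤ (T.pol A).dim → HSC (T.pol A) n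

/-- linear endomorphisms of the space of real cycle classes -/
abbrev EndR (T : Cycles.{u}) (A : T.Obj) : Type u := ZR T A →ₗ[ℝ] ZR T A

/-- families of algebra automorphisms of the rings of real cycle classes -/
abbrev AutsR (T : Cycles.{u}) : Type u := ∀ A : T.Obj, ZR T A ≃ₐ[ℝ] ZR T A

/-- `t` commutes with the Lefschetz correspondences from `A` to `A` -/
def CommCor {T : Cycles.{u}} (K : LefTheory T) (A : T.Obj) (t : EndR T A) : Prop :=
  ∀ u ∈ K.cor A A, ∀ x, t (u.ext x) = u.ext (t x)

/-- the form `B (x, t x)` is positive definite, `B` the Lefschetz form -/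
def PosForm {T : Cycles.{u}} (A : T.Obj) (t : EndR T A) : Prop :=
  ∀ x, x ≠ 0 → 0 < formR T A x (t x)

/-- `t` is an involution of the real cycle classes on `A` which commutes with the Lefschetz
correspondences from `A` to `A` and makes the Lefschetz form positive definite. -/
def IsDefect {T : Cycles.{u}} (K : LefTheory T) (A : T.Obj) (t : EndR T A) : Prop :=
  (∀ x, t (t x) = x) ∧ CommCor K A t ∧ PosForm A t

/-- `τ A` is the unique defect involution of `A` -/
def UniqueDefect {T : Cycles.{u}} (K : LefTheory T) (τ : AutsR T) : Prop :=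
  ∀ (A : T.Obj) (t : EndR T A), IsDefect K A t ↔ t = (τ A).toLinearMap

/-- the `τ A` preserve the codimension -/
def Graded {T : Cycles.{u}} (τ : AutsR T) : Prop :=
  ∀ (A : T.Obj) (n : ℕ), ∀ x ∈ codR T A n, τ A x ∈ codR T A n

/-- the `τ A` fix the divisor classes -/
def FixDivisors {T : Cycles.{u}} (τ : AutsR T) : Prop :=
  ∀ A : T.Obj, ∀ D ∈ (T.pol A).cod 1, τ A (toR D) = toR D

/-- the `τ A` commute with all Lefschetz correspondences -/
def Natural {T : Cycles.{u}} (K : LefTheory T) (τ : AutsR T) : Prop :=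
  ∀ A B : T.Obj, ∀ u ∈ K.cor A B, ∀ x, τ B (u.ext x) = u.ext (τ A x)

/-- `τ A` is the identity exactly when `A` satisfies Q1 -/
def Detects {T : Cycles.{u}} (τ : AutsR T) : Prop :=
  ∀ A : T.Obj, (∀ x, τ A x = x) ↔ Q1 T A

/-- The ring `Z A` is generated by divisor classes and by pull-backs along homomorphisms of
classes on polarised abelian varieties satisfying Q1. -/
def Generated {T : Cycles.{u}} {K : LefTheory T} {P : ProdTheory K} (H : HomTheory P)
    (A : T.Obj) : Prop :=
  Algebra.adjoin ℚ {y : T.Z A | y ∈ (T.pol A).cod 1 ∨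
    ∃ (B : T.Obj) (f : H.Hom A B) (x : T.Z B), Q1 T B ∧ y = H.pull f x} = ⊤

end Pc0b458t
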