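import Pool.Agent.Lib.Pc0b458t.Final
import Pool.Agent.Lib.Pc0b458t.DefsReal

/-!
The auxiliary theory attached to a theory of `Pool.Agent.Lib.Pc0b458t.Defs`.
-/

open TensorProduct

universe u

namespace Pc0b458t

/-- auxiliary form of the data -/
abbrev Cycles.toI (T : Cycles.{u}) : Pc0b458i.Cycles.{u} where
  Obj := T.Obj
  dim A := (T.pol A).dim
  Z := T.Z
  ringZ := T.ringZ
  algZ := T.algZ
  finZ := T.finZ
  cod A := (T.pol A).cod
  internal A := (T.pol A).internal
  one_mem A := (T.pol A).one_mem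
  cod_zero A := (T.pol A).cod_zero
  mul_mem A := (T.pol A).mul_mem
  cod_eq_zero A := (T.pol A).cod_eq_zero
  deg A := (T.pol A).deg
  deg_eq_zero A := (T.pol A).deg_eq_zero
  num_eq A := (T.pol A).num_eq
  L A := (T.pol A).L
  L_mem A := (T.pol A).L_mem
  L_pos A := (T.pol A).L_pos
  hl_inj A n hn := ((T.pol A).hl n hn).1
  hl_surj A n hn := ((T.pol A).hl n hn).2
  star A := (T.pol A).star
  star_prim A := (T.pol A).isStar

theorem cod_ind (T : Cycles.{u}) (A : T.Obj) {P : T.Z A → Prop} (h0 : P 0)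
    (hadd : ∀ x y, P x → P y → P (x + y)) (hcod : ∀ n, ∀ x ∈ (T.pol A).cod n, P x)
    (x : T.Z A) : P x :=
  Pc0b458i.cod_induction (T := T.toI) A h0 hadd hcod x

section Adj

variable {T : Cycles.{u}} (K : LefTheory T)

include K in
theorem deg_nondeg (A : T.Obj) {w : T.Z A} (h : ∀ x, (T.pol A).deg (x * w) = 0) : w = 0 := by
  choose p hpc hp using K.proj_mem A
  let pl : ℕ → T.Z A →ₗ[ℚ] T.Z A := fun n => p n
  have hpl : ∀ n i, ∀ x ∈ (T.pol A).cod i, pl n x = if i = n then x else 0 := hp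
  have hmem : ∀ n (x : T.Z A), pl n x ∈ (T.pol A).cod n := by
    intro n x
    refine cod_ind T A
      (P := fun x => pl n x ∈ (T.pol A).cod n)
      (by rw [map_zero]; exact Submodule.zero_mem _)
      (fun x y hx hy => by rw [map_add]; exact Submodule.add_mem _ hx hy) (fun k x hx => ?_) x
    rw [hpl n k x hx]
    split_ifs with h
    · exact h ▸ hx
    · exact Submodule.zero_mem _
  have hsum : ∀ x : T.Z A, ∑ n ∈ Finset.range ((T.pol A).dim + 1), pl n x = x := by
    intro x
    refine cod_ind T A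
      (P := fun x => ∑ n ∈ Finset.range ((T.pol A).dim + 1), pl n x = x)
      (by simp) (fun x y hx hy => by simp only [map_add, Finset.sum_add_distrib, hx, hy])
      (fun k x hx => ?_) x
    rcases Nat.lt_or_ge (T.pol A).dim k with h | h
    · rw [(T.pol A).cod_eq_zero k x h hx]; simp
    · rw [Finset.sum_eq_single k]
      · rw [hpl k k x hx, if_pos rfl]
      · intro n _ hn
        rw [hpl n k x hx, if_neg (Ne.symm hn)]
      · intro hk
        exact absurd (Finset.mem_range.2 (by omega)) hk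
  rw [← hsum w]
  refine Finset.sum_eq_zero fun n hn => ?_
  have hn' : n ≤ (T.pol A).dim := by
    have := Finset.mem_range.1 hn
    omega
  refine (T.pol A).num_eq n ((T.pol A).dim - n) _ (by omega) (hmem n w) fun y hy => ?_
  have key : ∀ v : T.Z A, (T.pol A).deg (pl n v * y) = (T.pol A).deg (v * y) := by
    intro v
    refine cod_ind T A
      (P := fun v => (T.pol A).deg (pl n v * y) = (T.pol A).deg (v * y)) (by simp)
      (fun x y hx hy => by rw [map_add, add_mul, add_mul, map_add, map_add, hx, hy])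
      (fun k x hx => ?_) v
    rw [hpl n k x hx]
    split_ifs with hk
    · rfl
    · rw [zero_mul, map_zero]
      exact ((T.pol A).deg_eq_zero (k + ((T.pol A).dim - n)) _ (by omega)
        ((T.pol A).mul_mem _ _ _ _ hx hy)).symm
  rw [key, mul_comm]
  exact h y

/-- the Lefschetz form of the auxiliary theory -/
noncomputable abbrev fm (T : Cycles.{u}) (A : T.Obj) : LinearMap.BilinForm ℚ (T.Z A) :=
  Pc0b458i.form T.toI A

theorem fm_symm (A : T.Obj) (x y : T.Z A) : fm T A x y = fm T A y x :=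
  Pc0b458i.form_symm (T := T.toI) A x y

include K in
theorem fm_nondeg (A : T.Obj) {y : T.Z A} (h : ∀ x, fm T A x y = 0) : y = 0 := by
  have h1 : (T.pol A).star y = 0 := deg_nondeg K A fun x => h x
  have h2 := Pc0b458i.star_star (T := T.toI) A y
  have h3 : T.toI.star A y = 0 := h1
  rw [h3, map_zero] at h2
  exact h2.symm

theorem adj_iff {A B : T.Obj} (u : Op T A B) (v : Op T B A) :
    u.Adj v ↔ ∀ x y, fm T B (u x) y = fm T A x (v y) := Iff.rfl

include K in
theorem Adj.unique {A B : T.Obj} {u : Op T A B} {v v' : Op T B A}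
    (h : u.Adj v) (h' : u.Adj v') : v = v' := by
  refine LinearMap.ext fun y => ?_
  rw [← sub_eq_zero]
  refine fm_nondeg K A fun x => ?_
  have h1 := (adj_iff u v).1 h x y
  have h2 := (adj_iff u v').1 h' x y
  have h3 : fm T A x (v y - v' y) = fm T A x (v y) - fm T A x (v' y) := map_sub _ _ _
  rw [← h1, ← h2, sub_self] at h3
  exact h3

theorem Adj.symm {A B : T.Obj} {u : Op T A B} {v : Op T B A}
    (h : u.Adj v) : v.Adj u := by
  rw [adj_iff] at h ⊢
  intro x y
  rw [fm_symm, ← h, fm_symm]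

theorem Adj.add {A B : T.Obj} {u u' : Op T A B} {v v' : Op T B A}
    (h : u.Adj v) (h' : u'.Adj v') : (u + u').Adj (v + v') := by
  rw [adj_iff] at h h' ⊢
  intro x y
  have e1 : fm T B ((u + u') x) y = fm T B (u x) y + fm T B (u' x) y := by
    have : (u + u') x = u x + u' x := rfl
    rw [this, map_add, LinearMap.add_apply]
  have e2 : fm T A x ((v + v') y) = fm T A x (v y) + fm T A x (v' y) := by
    have : (v + v') y = v y + v' y := rfl
    rw [this, map_add]
  rw [e1, e2, h, h']

theorem Adj.smul {A B : T.Obj} {u : Op T A B} {v : Op T B A} (r : ℚ)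
    (h : u.Adj v) : (r • u).Adj (r • v) := by
  rw [adj_iff] at h ⊢
  intro x y
  have e1 : fm T B ((r • u) x) y = r * fm T B (u x) y := by
    have : (r • u) x = r • u x := rfl
    rw [this, map_smul, LinearMap.smul_apply, smul_eq_mul]
  have e2 : fm T A x ((r • v) y) = r * fm T A x (v y) := by
    have : (r • v) y = r • v y := rfl
    rw [this, map_smul, smul_eq_mul]
  rw [e1, e2, h]

theorem Adj.comp {A B C : T.Obj} {u : Op T A B} {u' : Op T B A}
    {v : Op T B C} {v' : Op T C B} (h : u.Adj u') (h' : v.Adj v') :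
    (v.comp u).Adj (u'.comp v') := by
  rw [adj_iff] at h h' ⊢
  intro x y
  exact (h' (u x) y).trans (h x (v' y))

/-- the adjoint correspondence -/
noncomputable def dg {A B : T.Obj} (u : K.cor A B) : K.cor B A :=
  ⟨Classical.choose (K.adj_mem u.1 u.2), (Classical.choose_spec (K.adj_mem u.1 u.2)).1⟩

theorem dg_adj {A B : T.Obj} (u : K.cor A B) : u.1.Adj (dg K u).1 :=
  (Classical.choose_spec (K.adj_mem u.1 u.2)).2

theorem dg_eq {A B : T.Obj} (u : K.cor A B) (v : K.cor B A) (h : u.1.Adj v.1) : dg K u = v :=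
  Subtype.ext (Adj.unique K (dg_adj K u) h)

include K in
theorem trace_adj {A : T.Obj} {u v : Op T A A} (h : u.Adj v) : v.trace = u.trace := by
  have hinj : Function.Injective ((fm T A).flip) := by
    rw [injective_iff_map_eq_zero]
    intro y hy
    refine fm_nondeg K A fun x => ?_
    have := LinearMap.congr_fun hy x
    exact this
  let e : T.Z A ≃ₗ[ℚ] Module.Dual ℚ (T.Z A) :=
    LinearEquiv.ofInjectiveOfFinrankEq ((fm T A).flip) hinj (Subspace.dual_finrank_eq).symm
  have he : ∀ y x, e y x = fm T A x y := fun y x => rfl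
  have h1 : (show T.Z A →ₗ[ℚ] T.Z A from v) =
      e.symm.toLinearMap ∘ₗ (Module.Dual.transpose (show T.Z A →ₗ[ℚ] T.Z A from u)) ∘ₗ
        e.toLinearMap := by
    refine LinearMap.ext fun y => ?_
    rw [LinearMap.comp_apply, LinearMap.comp_apply, LinearEquiv.coe_coe, LinearEquiv.coe_coe,
      LinearEquiv.eq_symm_apply]
    refine LinearMap.ext fun x => ?_
    rw [he]
    exact ((adj_iff u v).1 h x y).symm
  have h2 : (show T.Z A →ₗ[ℚ] T.Z A from v) =
      e.symm.conj (Module.Dual.transpose (show T.Z A →ₗ[ℚ] T.Z A from u)) := by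
    rw [h1]; rfl
  have h3 := LinearMap.trace_conj' (Module.Dual.transpose (show T.Z A →ₗ[ℚ] T.Z A from u)) e.symm
  rw [← h2, LinearMap.trace_transpose'] at h3
  exact h3

end Adj

/-- auxiliary form of the data -/
noncomputable abbrev LefTheory.toI {T : Cycles.{u}} (K : LefTheory T) :
    Pc0b458i.LefTheory.{u} where
  toCycles := T.toI
  Cor A B := K.cor A B
  grpC A B := inferInstance
  modC A B := inferInstance
  finC A B := by
    have : Module.Finite ℚ (T.Z A →ₗ[ℚ] T.Z B) := inferInstance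
    have h2 : Module.Finite ℚ (Op T A B) := this
    exact Module.Finite.of_injective (K.cor A B).subtype (Submodule.injective_subtype _)
  comp {A B C} := LinearMap.mk₂ ℚ
    (fun (v : K.cor B C) (u : K.cor A B) =>
      (⟨v.1.comp u.1, K.comp_mem v.1 u.1 v.2 u.2⟩ : K.cor A C))
    (fun _ _ _ => rfl) (fun _ _ _ => rfl)
    (fun v u u' => Subtype.ext (LinearMap.ext fun x =>
      map_add (show T.Z B →ₗ[ℚ] T.Z C from v.1) _ _))
    (fun r v u => Subtype.ext (LinearMap.ext fun x =>
      map_smul (show T.Z B →ₗ[ℚ] T.Z C from v.1) _ _))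
  comp_assoc _ _ _ := rfl
  one A := ⟨Op.one A, K.one_mem A⟩
  act {A B} := (K.cor A B).subtype
  act_one _ _ := rfl
  act_comp _ _ _ := rfl
  dag {A B} :=
    { toFun := dg K
      map_add' := fun u u' => dg_eq K _ _ (Adj.add (dg_adj K u) (dg_adj K u'))
      map_smul' := fun r u => dg_eq K _ _ (Adj.smul r (dg_adj K u)) }
  dag_dag u := dg_eq K _ _ (Adj.symm (dg_adj K u))
  dag_comp v u := dg_eq K _ _ (Adj.comp (dg_adj K u) (dg_adj K v))
  act_dag u x y := dg_adj K u x y
  tr {A} := (LinearMap.trace ℚ (T.Z A)) ∘ₗ (K.cor A A).subtype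
  tr_comm {A B} v u := LinearMap.trace_comp_comm' (show T.Z A →ₗ[ℚ] T.Z B from u.1)
    (show T.Z B →ₗ[ℚ] T.Z A from v.1)
  tr_dag {A} u := trace_adj K (dg_adj K u)
  tr_pos {A B} u hu := K.pos u.1 (dg K u).1 u.2 (dg K u).2 (dg_adj K u)
    fun h => hu (Subtype.ext h)
  cor_div A D hD := ⟨⟨Op.mul D, K.mul_mem A D hD⟩, fun _ => rfl⟩
  cor_proj A n := by
    obtain ⟨u, hu, h⟩ := K.proj_mem A n
    exact ⟨⟨u, hu⟩, h⟩

/-- auxiliary form of the data -/
noncomputable abbrev HomTheory.toI {T : Cycles.{u}} {K : LefTheory T} {P : ProdTheory K}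
    (H : HomTheory P) (hC : Commutants P) : Pc0b458i.FpTheory.{u} where
  toLefTheory := K.toI
  prod := P.prod
  p₁ {A B} := (P.prodData A B).p₁
  p₂ {A B} := (P.prodData A B).p₂
  dim_prod A B := (P.prodData A B).dim_eq
  L_prod A B := (P.prodData A B).L_eq
  deg_prod {A B} := (P.prodData A B).deg_eq
  star_prod {A B} := (P.prodData A B).star_eq
  box A B := {w | w.1 ∈ P.box A B}
  box_apply {A B} w hw := by
    obtain ⟨u, hu, v, hv, h⟩ := P.box_apply A B w.1 hw
    exact ⟨⟨u, hu⟩, ⟨v, hv⟩, h⟩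
  box_exists {A B} u v := by
    obtain ⟨w, hw, h⟩ := P.box_exists A B u.1 u.2 v.1 v.2
    exact ⟨⟨w, P.box_cor A B w hw⟩, hw, h⟩
  Hom := H.Hom
  pull := H.pull
  cor_pull f := by
    obtain ⟨u, hu, h⟩ := H.pull_cor f
    exact ⟨⟨u, hu⟩, h⟩
  diag := H.diag
  pull_diag := H.pull_diag
  commutant A c hc := ⟨⟨c, hC.single A c fun u hu => LinearMap.ext fun x => hc ⟨u, hu⟩ x⟩,
    fun _ => rfl⟩
  commutant_prod A B c hc := by
    have h1 := hC.prod A B c fun w hw =>
      LinearMap.ext fun x => hc ⟨w, P.box_cor A B w hw⟩ hw x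
    refine Submodule.span_mono ?_ h1
    rintro w hw
    exact ⟨⟨w, P.box_cor A B w hw⟩, hw, rfl⟩

end Pc0b458t
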