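import Mathlib

/-!
# Numerical cycles and Lefschetz correspondences on polarised abelian varieties

`Cycles` and `LefTheory` collect well known properties of the rings of algebraic cycles modulo
numerical equivalence, with rational coefficients, on polarised abelian varieties over a field,
and of the operators given by Lefschetz correspondences (linear combinations of intersections
of divisors on `A × B`).  `FpTheory` adds well known properties which hold over an algebraic
closure of a finite field.
-/

universe u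

namespace Pc0b458t

/-- The ring `Z` of cycle classes modulo numerical equivalence (rational coefficients, all
codimensions together) of an abelian variety. -/
structure CycRing (Z : Type u) [CommRing Z] [Algebra ℚ Z] where
  /-- the dimension of the abelian variety -/
  dim : ℕ
  /-- classes of codimension `n` -/
  cod : ℕ → Submodule ℚ Z
  internal : DirectSum.IsInternal cod
  one_mem : (1 : Z) ∈ cod 0
  cod_zero : ∀ x ∈ cod 0, ∃ r : ℚ, x = algebraMap ℚ Z r
  mul_mem : ∀ i j x y, x ∈ cod i → y ∈ cod j → x * y ∈ cod (i + j)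
  cod_eq_zero : ∀ i x, dim < i → x ∈ cod i → x = 0
  /-- the degree of a class of codimension `dim`, extended by zero -/
  deg : Z →ₗ[ℚ] ℚ
  deg_eq_zero : ∀ i x, i ≠ dim → x ∈ cod i → deg x = 0
  /-- numerically trivial classes are zero -/
  num_eq : ∀ i j x, i + j = dim → x ∈ cod i → (∀ y ∈ cod j, deg (x * y) = 0) → x = 0

/-- the hard Lefschetz theorem for `L` -/
def HardLef {Z : Type u} [CommRing Z] [Algebra ℚ Z] (R : CycRing Z) (L : Z) : Prop :=
  ∀ n, 2 * n ≤ R.dim →
    (∀ x ∈ R.cod n, L ^ (R.dim - 2 * n) * x = 0 → x = 0) ∧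
    (∀ y ∈ R.cod (R.dim - n), ∃ x ∈ R.cod n, L ^ (R.dim - 2 * n) * x = y)

/-- `s` is the Lefschetz star operator of `L`: for primitive `z` of codimension `m` it maps
`L ^ a * z` to `(-1) ^ m * a! / (dim - 2 m - a)! • L ^ (dim - 2 m - a) * z` -/
def IsStar {Z : Type u} [CommRing Z] [Algebra ℚ Z] (R : CycRing Z) (L : Z) (s : Z →ₗ[ℚ] Z) :
    Prop :=
  ∀ m a z, 2 * m + a ≤ R.dim → z ∈ R.cod m → L ^ (R.dim - 2 * m + 1) * z = 0 →
    s (L ^ a * z) = ((-1) ^ m * (a.factorial : ℚ) / ((R.dim - 2 * m - a).factorial : ℚ)) •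
      (L ^ (R.dim - 2 * m - a) * z)

/-- The ring of cycle classes of an abelian variety with the class `L` of a polarisation. -/
structure PolRing (Z : Type u) [CommRing Z] [Algebra ℚ Z] extends CycRing Z where
  L : Z
  L_mem : L ∈ cod 1
  L_pos : 0 < deg (L ^ dim)
  hl : HardLef toCycRing L
  /-- the Lefschetz star operator -/
  star : Z →ₗ[ℚ] Z
  isStar : IsStar toCycRing L star

/-- positivity of the form `(-1)^n x.x.L^(g-2n)` on the nonzero primitive classes of
codimension `n`, where `g` is the dimension -/
def HSC {Z : Type u} [CommRing Z] [Algebra ℚ Z] (R : PolRing Z) (n : ℕ) : Prop :=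
  ∀ x ∈ R.cod n, x ≠ 0 → R.L ^ (R.dim - 2 * n + 1) * x = 0 →
    0 < (-1) ^ n * R.deg (x * x * R.L ^ (R.dim - 2 * n))

/-- positivity of `(-1)^n x.x.L^(g-2n)` for the nonzero classes `x` of codimension `n`
such that `D.L^(g-2n).x = 0` for all divisor classes `D` -/
def TotPos {Z : Type u} [CommRing Z] [Algebra ℚ Z] (R : PolRing Z) (n : ℕ) : Prop :=
  ∀ x ∈ R.cod n, x ≠ 0 → (∀ D ∈ R.cod 1, D * (R.L ^ (R.dim - 2 * n) * x) = 0) →
    0 < (-1) ^ n * R.deg (x * x * R.L ^ (R.dim - 2 * n))

/-- The rings of numerical cycle classes of the polarised abelian varieties over a field. -/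
structure Cycles where
  /-- the polarised abelian varieties over the base field -/
  Obj : Type u
  /-- the ring of numerical cycle classes with rational coefficients -/
  Z : Obj → Type u
  [ringZ : ∀ A, CommRing (Z A)]
  [algZ : ∀ A, Algebra ℚ (Z A)]
  [finZ : ∀ A, Module.Finite ℚ (Z A)]
  pol : ∀ A, PolRing (Z A)

attribute [instance] Cycles.ringZ Cycles.algZ Cycles.finZ

/-- linear maps between the spaces of cycle classes -/
def Op (T : Cycles.{u}) (A B : T.Obj) : Type u := T.Z A →ₗ[ℚ] T.Z B

section Op

variable {T : Cycles.{u}} {A B C : T.Obj}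

instance : AddCommGroup (Op T A B) := (inferInstance : AddCommGroup (T.Z A →ₗ[ℚ] T.Z B))
instance : Module ℚ (Op T A B) := (inferInstance : Module ℚ (T.Z A →ₗ[ℚ] T.Z B))
instance : FunLike (Op T A B) (T.Z A) (T.Z B) :=
  (inferInstance : FunLike (T.Z A →ₗ[ℚ] T.Z B) (T.Z A) (T.Z B))

/-- the identity -/
def Op.one (A : T.Obj) : Op T A A := (LinearMap.id : T.Z A →ₗ[ℚ] T.Z A)

/-- composition -/
def Op.comp (v : Op T B C) (u : Op T A B) : Op T A C :=
  (show T.Z B →ₗ[ℚ] T.Z C from v) ∘ₗ (show T.Z A →ₗ[ℚ] T.Z B from u)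

/-- the trace -/
noncomputable def Op.trace (u : Op T A A) : ℚ := LinearMap.trace ℚ (T.Z A) u

/-- multiplication by a class -/
def Op.mul (D : T.Z A) : Op T A A := LinearMap.mulLeft ℚ D

/-- `v` is adjoint to `u` for the Lefschetz forms `deg (x * star y)` -/
def Op.Adj (u : Op T A B) (v : Op T B A) : Prop :=
  ∀ x y, (T.pol B).deg (u x * (T.pol B).star y) = (T.pol A).deg (x * (T.pol A).star (v y))

end Op

/-- The operators `Z A → Z B` given by the Lefschetz correspondences, i.e. by the linear
combinations of intersections of divisor classes on `A × B`, of all degrees.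

The field `pos` is the positivity, due to Milne, of the involution on the algebra of Lefschetz
correspondences given by transposition and the Lefschetz star operators; it is stated for the
trace on `Z A`. -/
structure LefTheory (T : Cycles.{u}) where
  cor : ∀ A B, Submodule ℚ (Op T A B)
  one_mem : ∀ A, Op.one A ∈ cor A A
  comp_mem : ∀ {A B C} (v : Op T B C) (u : Op T A B), v ∈ cor B C → u ∈ cor A B →
    v.comp u ∈ cor A C
  adj_mem : ∀ {A B} (u : Op T A B), u ∈ cor A B → ∃ v ∈ cor B A, u.Adj v
  pos : ∀ {A B} (u : Op T A B) (v : Op T B A), u ∈ cor A B → v ∈ cor B A → u.Adj v → u ≠ 0 →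
    0 < (v.comp u).trace
  /-- multiplication by a divisor class is a Lefschetz correspondence -/
  mul_mem : ∀ A, ∀ D ∈ (T.pol A).cod 1, Op.mul D ∈ cor A A
  /-- the projection to the classes of codimension `n` is a Lefschetz correspondence -/
  proj_mem : ∀ A n, ∃ u ∈ cor A A, ∀ i, ∀ x ∈ (T.pol A).cod i, u x = if i = n then x else 0

/-- products, with the pull-backs along the projections and the product polarisation -/
structure ProdData {Z W V : Type u} [CommRing Z] [Algebra ℚ Z] [CommRing W] [Algebra ℚ W]
    [CommRing V] [Algebra ℚ V] (P : PolRing Z) (Q : PolRing W) (R : PolRing V) where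
  p₁ : Z →ₐ[ℚ] V
  p₂ : W →ₐ[ℚ] V
  dim_eq : R.dim = P.dim + Q.dim
  L_eq : R.L = p₁ P.L + p₂ Q.L
  deg_eq : ∀ x y, R.deg (p₁ x * p₂ y) = P.deg x * Q.deg y
  star_eq : ∀ x y, R.star (p₁ x * p₂ y) = p₁ (P.star x) * p₂ (Q.star y)

/-- exterior product of cycle classes -/
def ProdData.ext {Z W V : Type u} [CommRing Z] [Algebra ℚ Z] [CommRing W] [Algebra ℚ W]
    [CommRing V] [Algebra ℚ V] {P : PolRing Z} {Q : PolRing W} {R : PolRing V}
    (D : ProdData P Q R) (x : Z) (y : W) : V := D.p₁ x * D.p₂ y

/-- `w` is the exterior product of `u` and `v` on exterior products of classes -/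
def ProdData.Box {Z W V : Type u} [CommRing Z] [Algebra ℚ Z] [CommRing W] [Algebra ℚ W]
    [CommRing V] [Algebra ℚ V] {P : PolRing Z} {Q : PolRing W} {R : PolRing V}
    (D : ProdData P Q R) (w : V → V) (u : Z → Z) (v : W → W) : Prop :=
  ∀ x y, w (D.ext x y) = D.ext (u x) (v y)

/-- Products `A × B`, and the exterior products of a Lefschetz correspondence from `A` to `A`
and one from `B` to `B`. -/
structure ProdTheory {T : Cycles.{u}} (K : LefTheory T) where
  prod : T.Obj → T.Obj → T.Obj
  prodData : ∀ A B, ProdData (T.pol A) (T.pol B) (T.pol (prod A B))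
  /-- the operators given by exterior products of Lefschetz correspondences -/
  box : ∀ A B, Set (Op T (prod A B) (prod A B))
  box_cor : ∀ A B, ∀ w ∈ box A B, w ∈ K.cor (prod A B) (prod A B)
  box_apply : ∀ A B, ∀ w ∈ box A B, ∃ u ∈ K.cor A A, ∃ v ∈ K.cor B B, (prodData A B).Box w u v
  box_exists : ∀ A B, ∀ u ∈ K.cor A A, ∀ v ∈ K.cor B B, ∃ w ∈ box A B, (prodData A B).Box w u v

/-- Homomorphisms `A → B` and the pull-back of cycle classes, which is given by a Lefschetz
correspondence. -/
structure HomTheory {T : Cycles.{u}} {K : LefTheory T} (P : ProdTheory K) where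
  Hom : T.Obj → T.Obj → Type u
  pull : ∀ {A B}, Hom A B → (T.Z B →ₐ[ℚ] T.Z A)
  pull_cor : ∀ {A B} (f : Hom A B), ∃ u ∈ K.cor B A, ∀ x, u x = pull f x
  /-- the diagonal `A → A × A` -/
  diag : ∀ A, Hom A (P.prod A A)
  pull_diag : ∀ A (x y : T.Z A), pull (diag A) ((P.prodData A A).ext x y) = x * y

/-- Properties over an algebraic closure of a finite field (Tate, Milne): the commutants of the
operators given by Lefschetz correspondences. -/
structure Commutants {T : Cycles.{u}} {K : LefTheory T} (P : ProdTheory K) : Prop where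
  /-- an endomorphism of `Z A` which commutes with the Lefschetz correspondences is given by
  a Lefschetz correspondence -/
  single : ∀ A (c : Op T A A), (∀ u ∈ K.cor A A, c.comp u = u.comp c) → c ∈ K.cor A A
  /-- an endomorphism of `Z (A × B)` which commutes with the exterior products of Lefschetz
  correspondences on `A` and `B` is a linear combination of such exterior products -/
  prod : ∀ A B (c : Op T (P.prod A B) (P.prod A B)),
    (∀ w ∈ P.box A B, c.comp w = w.comp c) → c ∈ Submodule.span ℚ (P.box A B)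

end Pc0b458t
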