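import Pool.Agent.Lib.Pc0b458t.Fp

/-!
Further properties of the sign involution.
-/

open TensorProduct Polynomial

universe u

namespace Pc0b458i

/-- positivity on the primitive classes of all codimensions `n ≤ g/2` -/
def HSCall (T : Cycles.{u}) (A : T.Obj) : Prop := ∀ n, 2 * n ≤ T.dim A → HSC T A n

variable {T : FpTheory.{u}}

theorem pr_baseChange_mem (A : T.Obj) (n : ℕ) (x : ℝ ⊗[ℚ] T.Z A) :
    (pr (T := T.toLefTheory) A n).baseChange ℝ x ∈ (T.cod A n).baseChange ℝ := by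
  induction x using TensorProduct.induction_on with
  | zero => rw [map_zero]; exact Submodule.zero_mem _
  | add x y hx hy => rw [map_add]; exact Submodule.add_mem _ hx hy
  | tmul r x =>
    rw [LinearMap.baseChange_tmul]
    exact Submodule.tmul_mem_baseChange_of_mem r (pr_mem (T := T.toLefTheory) A n x)

theorem pr_baseChange_eq (A : T.Obj) (n : ℕ) {x : ℝ ⊗[ℚ] T.Z A}
    (hx : x ∈ (T.cod A n).baseChange ℝ) :
    (pr (T := T.toLefTheory) A n).baseChange ℝ x = x := by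
  rw [Submodule.baseChange_eq_span] at hx
  induction hx using Submodule.span_induction with
  | mem x hx =>
    obtain ⟨y, hy, rfl⟩ := hx
    rw [TensorProduct.mk_apply, LinearMap.baseChange_tmul, pr_cod (T := T.toLefTheory) A n hy,
      if_pos rfl]
  | zero => rw [map_zero]
  | add x y _ _ hx hy => rw [map_add, hx, hy]
  | smul r x _ hx => rw [map_smul, hx]

theorem sgn_cod (A : T.Obj) (n : ℕ) {x : ℝ ⊗[ℚ] T.Z A} (hx : x ∈ (T.cod A n).baseChange ℝ) :
    sgn A x ∈ (T.cod A n).baseChange ℝ := by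
  rw [← pr_baseChange_eq A n hx]
  have h : sgn A ((pr (T := T.toLefTheory) A n).baseChange ℝ x) =
      (pr (T := T.toLefTheory) A n).baseChange ℝ (sgn A x) := sgn_nat _ x
  rw [h]
  exact pr_baseChange_mem A n _

theorem sgn_div (A : T.Obj) {D : T.Z A} (hD : D ∈ T.cod A 1) :
    sgn A ((1 : ℝ) ⊗ₜ D) = (1 : ℝ) ⊗ₜ D := by
  obtain ⟨u, hu⟩ := T.cor_div A D hD
  have h1 : (1 : ℝ) ⊗ₜ[ℚ] D = (T.act u).baseChange ℝ ((1 : ℝ) ⊗ₜ[ℚ] (1 : T.Z A)) := by
    rw [LinearMap.baseChange_tmul, hu, mul_one]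
  have h2 : sgn A ((1 : ℝ) ⊗ₜ[ℚ] (1 : T.Z A)) = (1 : ℝ) ⊗ₜ[ℚ] (1 : T.Z A) :=
    map_one (sgnAut A)
  rw [h1, sgn_nat, h2]

theorem hscall_iff (A : T.Obj) : (∀ x, sgn A x = x) ↔ HSCall T.toCycles A := by
  constructor
  · intro h n hn
    refine HSC_of_formR_pos (T := T.toLefTheory) (fun x hx => ?_) hn
    have := (isSign_sgn A).pos x hx
    rwa [h] at this
  · intro h x
    obtain ⟨q, c, hc⟩ := exists_rep (T := T.toLefTheory) A
    have hpos := form_pos_of_no_neg hc fun l hl x hx =>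
      no_neg A (fun n hn => (h n hn).totPos) hc hl x hx
    by_contra hne
    have hw : x - sgn A x ≠ 0 := fun h0 => hne (sub_eq_zero.1 h0).symm
    have h1 : sgn A (x - sgn A x) = -(x - sgn A x) := by
      rw [map_sub, (isSign_sgn A).invol]; abel
    have h2 := (isSign_sgn A).pos _ hw
    rw [h1, map_neg] at h2
    have h3 := hpos _ hw
    linarith

/-- uniqueness of the sign involution -/
theorem sgn_unique (A : T.Obj) (t : (ℝ ⊗[ℚ] T.Z A) →ₗ[ℝ] (ℝ ⊗[ℚ] T.Z A))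
    (h1 : ∀ x, t (t x) = x)
    (h2 : ∀ (u : T.Cor A A) x, t ((T.act u).baseChange ℝ x) = (T.act u).baseChange ℝ (t x))
    (h3 : ∀ x, x ≠ 0 → 0 < formR T.toCycles A x (t x)) (x : ℝ ⊗[ℚ] T.Z A) :
    t x = sgn A x := by
  refine invol_unique (formR T.toCycles A) t (sgn A) h1 (isSign_sgn A).invol (fun x => ?_) h3
    (isSign_sgn A).pos x
  obtain ⟨q, c, p, hc, h⟩ := (isSign_sgn A).ex
  rw [h]
  obtain ⟨u, hu⟩ := T.commutant A c fun u x => hc.comm u x
  have hu' : T.act u = c := LinearMap.ext hu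
  refine (aeval_intertwine _ _ t (fun y => ?_) p x).symm
  rw [← hu', h2]

/-- positivity passes to rings generated by divisor classes and pull-backs -/
theorem hsc_of_generated (A : T.Obj)
    (h : Algebra.adjoin ℚ ({D | D ∈ T.cod A 1} ∪ {y | ∃ (B : T.Obj) (f : T.Hom A B) (x : T.Z B),
      HSCall T.toCycles B ∧ y = T.pull f x}) = ⊤) : HSCall T.toCycles A := by
  rw [← hscall_iff]
  have h1 : ∀ y : T.Z A, sgn A ((1 : ℝ) ⊗ₜ y) = (1 : ℝ) ⊗ₜ y := by
    intro y
    have hy : y ∈ Algebra.adjoin ℚ ({D | D ∈ T.cod A 1} ∪ {y | ∃ (B : T.Obj) (f : T.Hom A B)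
        (x : T.Z B), HSCall T.toCycles B ∧ y = T.pull f x}) := by
      rw [h]; exact Algebra.mem_top
    induction hy using Algebra.adjoin_induction with
    | mem y hy =>
      rcases hy with hy | ⟨B, f, x, hB, rfl⟩
      · exact sgn_div A hy
      · obtain ⟨u, hu⟩ := T.cor_pull f
        have h2 : (1 : ℝ) ⊗ₜ[ℚ] (T.pull f x) = (T.act u).baseChange ℝ ((1 : ℝ) ⊗ₜ[ℚ] x) := by
          rw [LinearMap.baseChange_tmul, hu]
        rw [h2, sgn_nat, (hscall_iff B).2 hB]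
    | algebraMap r =>
      have h2 : (1 : ℝ) ⊗ₜ[ℚ] (algebraMap ℚ (T.Z A) r) = algebraMap ℝ (ℝ ⊗[ℚ] T.Z A) (r : ℝ) := by
        rw [Algebra.TensorProduct.algebraMap_apply, Algebra.algebraMap_eq_smul_one,
          TensorProduct.tmul_smul, TensorProduct.smul_tmul', Rat.smul_def, mul_one]
        rfl
      rw [h2]
      exact (sgnAut A).commutes _
    | add x y _ _ hx hy => rw [TensorProduct.tmul_add, map_add, hx, hy]
    | mul x y _ _ hx hy =>
      have h2 : (1 : ℝ) ⊗ₜ[ℚ] (x * y) = ((1 : ℝ) ⊗ₜ[ℚ] x) * ((1 : ℝ) ⊗ₜ[ℚ] y) := by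
        rw [Algebra.TensorProduct.tmul_mul_tmul, mul_one]
      rw [h2, sgn_mul, hx, hy]
  intro x
  induction x using TensorProduct.induction_on with
  | zero => exact map_zero _
  | add x y hx hy => rw [map_add, hx, hy]
  | tmul r y =>
    have h2 : r ⊗ₜ[ℚ] y = r • ((1 : ℝ) ⊗ₜ[ℚ] y) := by
      rw [TensorProduct.smul_tmul', smul_eq_mul, mul_one]
    rw [h2, map_smul, h1]

end Pc0b458i
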