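import Pool.Agent.Lib.Pc0b458t.Sign

/-!
Naturality and multiplicativity of the sign involution.
-/

open TensorProduct Polynomial

universe u

namespace Pc0b458i

variable {T : FpTheory.{u}}

/-- two representing operators commute -/
theorem Rep.commute {A : T.Obj} {q q' : LinearMap.BilinForm ℚ (T.Z A)}
    {c c' : T.Z A →ₗ[ℚ] T.Z A} (h : Rep (T := T.toLefTheory) A q c)
    (h' : Rep (T := T.toLefTheory) A q' c') (x : T.Z A) : c (c' x) = c' (c x) := by
  obtain ⟨u, hu⟩ := T.commutant A c' fun u x => h'.comm u x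
  rw [← hu, h.comm, hu]

/-- the data of the sign involution -/
structure IsSign (A : T.Obj) (t : (ℝ ⊗[ℚ] T.Z A) →ₗ[ℝ] (ℝ ⊗[ℚ] T.Z A)) : Prop where
  ex : ∃ (q : LinearMap.BilinForm ℚ (T.Z A)) (c : T.Z A →ₗ[ℚ] T.Z A) (p : ℝ[X]),
    Rep (T := T.toLefTheory) A q c ∧ t = aeval (c.baseChange ℝ) p
  invol : ∀ x, t (t x) = x
  pos : ∀ x, x ≠ 0 → 0 < formR T.toCycles A x (t x)

theorem aeval_commute {V : Type*} [AddCommGroup V] [Module ℝ V] (f g : Module.End ℝ V)
    (h : ∀ x, f (g x) = g (f x)) (p r : ℝ[X]) (x : V) :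
    aeval f p (aeval g r x) = aeval g r (aeval f p x) := by
  refine (aeval_intertwine g g (aeval f p) (fun y => ?_) r x).symm
  exact (aeval_intertwine f f g (fun z => h z) p y).symm

theorem IsSign.unique {A : T.Obj} {s t : (ℝ ⊗[ℚ] T.Z A) →ₗ[ℝ] (ℝ ⊗[ℚ] T.Z A)}
    (hs : IsSign A s) (ht : IsSign A t) (x : ℝ ⊗[ℚ] T.Z A) : s x = t x := by
  refine invol_unique (formR T.toCycles A) s t hs.invol ht.invol (fun x => ?_) hs.pos ht.pos x
  obtain ⟨q, c, p, hc, rfl⟩ := hs.ex
  obtain ⟨q', c', p', hc', rfl⟩ := ht.ex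
  refine aeval_commute _ _ (fun x => ?_) _ _ _
  rw [← baseChange_comp_apply, ← baseChange_comp_apply]
  congr 2
  exact LinearMap.ext fun z => hc.commute hc' z

theorem exists_isSign (A : T.Obj) : ∃ t : (ℝ ⊗[ℚ] T.Z A) →ₗ[ℝ] (ℝ ⊗[ℚ] T.Z A), IsSign A t := by
  obtain ⟨q, c, hc⟩ := exists_rep (T := T.toLefTheory) A
  obtain ⟨S, hS⟩ := exists_signPoly hc
  obtain ⟨p, hp⟩ := exists_poly S
  exact ⟨aeval (c.baseChange ℝ) p, ⟨q, c, p, hc, rfl⟩, (hS p hp).1, (hS p hp).2⟩

/-- the sign involution -/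
noncomputable def sgn (A : T.Obj) : (ℝ ⊗[ℚ] T.Z A) →ₗ[ℝ] (ℝ ⊗[ℚ] T.Z A) :=
  Classical.choose (exists_isSign A)

theorem isSign_sgn (A : T.Obj) : IsSign A (sgn A) := Classical.choose_spec (exists_isSign A)

/-- the sign involution commutes with the Lefschetz correspondences -/
theorem sgn_nat {A B : T.Obj} (u : T.Cor A B) (x : ℝ ⊗[ℚ] T.Z A) :
    sgn B ((T.act u).baseChange ℝ x) = (T.act u).baseChange ℝ (sgn A x) := by
  obtain ⟨q, c, hA, hB, hn⟩ := exists_rep_pair (T := T.toLefTheory) A B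
  obtain ⟨S, hS⟩ := exists_signPoly hA
  obtain ⟨S', hS'⟩ := exists_signPoly hB
  classical
  obtain ⟨p, hp⟩ := exists_poly (S ∪ S')
  have hpA := hS p fun s hs => hp s (Finset.mem_union_left _ hs)
  have hpB := hS' p fun s hs => hp s (Finset.mem_union_right _ hs)
  have sA : IsSign A (aeval ((c A).baseChange ℝ) p) := ⟨⟨_, _, _, hA, rfl⟩, hpA.1, hpA.2⟩
  have sB : IsSign B (aeval ((c B).baseChange ℝ) p) := ⟨⟨_, _, _, hB, rfl⟩, hpB.1, hpB.2⟩
  rw [(isSign_sgn A).unique sA, (isSign_sgn B).unique sB]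
  refine aeval_intertwine _ _ _ (fun y => ?_) p x
  rw [← baseChange_comp_apply, ← baseChange_comp_apply]
  congr 2
  exact LinearMap.ext fun z => hn u z

section Prod

variable (A B : T.Obj)

/-- exterior product of real classes -/
noncomputable def bx : (ℝ ⊗[ℚ] T.Z A) →ₗ[ℝ] (ℝ ⊗[ℚ] T.Z B) →ₗ[ℝ] (ℝ ⊗[ℚ] T.Z (T.prod A B)) :=
  LinearMap.compl₁₂ (LinearMap.mul ℝ (ℝ ⊗[ℚ] T.Z (T.prod A B)))
    ((T.p₁ (A := A) (B := B)).toLinearMap.baseChange ℝ)
    ((T.p₂ (A := A) (B := B)).toLinearMap.baseChange ℝ)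

theorem bx_apply (x : ℝ ⊗[ℚ] T.Z A) (y : ℝ ⊗[ℚ] T.Z B) :
    bx A B x y = ((T.p₁ (A := A) (B := B)).toLinearMap.baseChange ℝ x) *
      ((T.p₂ (A := A) (B := B)).toLinearMap.baseChange ℝ y) := rfl

theorem bx_tmul (r s : ℝ) (x : T.Z A) (y : T.Z B) :
    bx A B (r ⊗ₜ x) (s ⊗ₜ y) = (r * s) ⊗ₜ (T.p₁ x * T.p₂ y) := by
  rw [bx_apply, LinearMap.baseChange_tmul, LinearMap.baseChange_tmul,
    Algebra.TensorProduct.tmul_mul_tmul]
  rfl

variable {A B}

theorem form_box (x x' : T.Z A) (y y' : T.Z B) :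
    form T.toCycles (T.prod A B) (T.p₁ x * T.p₂ y) (T.p₁ x' * T.p₂ y') =
      form T.toCycles A x x' * form T.toCycles B y y' := by
  rw [form_apply, form_apply, form_apply, T.star_prod, ← T.deg_prod, map_mul T.p₁ x,
    map_mul T.p₂ y]
  congr 1
  ring

theorem formR_bx (x x' : ℝ ⊗[ℚ] T.Z A) (y y' : ℝ ⊗[ℚ] T.Z B) :
    formR T.toCycles (T.prod A B) (bx A B x y) (bx A B x' y') =
      formR T.toCycles A x x' * formR T.toCycles B y y' := by
  induction x using TensorProduct.induction_on with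
  | zero => simp
  | add x₁ x₂ h₁ h₂ => simp only [map_add, LinearMap.add_apply, h₁, h₂, add_mul]
  | tmul r x =>
    induction y using TensorProduct.induction_on with
    | zero => simp
    | add x₁ x₂ h₁ h₂ => simp only [map_add, LinearMap.add_apply, h₁, h₂, mul_add]
    | tmul s y =>
      induction x' using TensorProduct.induction_on with
      | zero => simp
      | add x₁ x₂ h₁ h₂ => simp only [map_add, LinearMap.add_apply, h₁, h₂, add_mul]
      | tmul r' x' =>
        induction y' using TensorProduct.induction_on with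
        | zero => simp
        | add x₁ x₂ h₁ h₂ => simp only [map_add, h₁, h₂, mul_add]
        | tmul s' y' =>
          rw [bx_tmul, bx_tmul]
          unfold formR
          rw [LinearMap.BilinForm.baseChange_tmul, LinearMap.BilinForm.baseChange_tmul,
            LinearMap.BilinForm.baseChange_tmul, form_box]
          simp only [Rat.smul_def]
          push_cast
          ring

/-- the span of the exterior products -/
noncomputable def boxSpan (A B : T.Obj) : Submodule ℝ (ℝ ⊗[ℚ] T.Z (T.prod A B)) :=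
  Submodule.span ℝ {z | ∃ x y, z = bx A B x y}

theorem act_box_bx (w : T.Cor (T.prod A B) (T.prod A B)) (u : T.Cor A A) (v : T.Cor B B)
    (hw : ∀ x y, T.act w (T.p₁ x * T.p₂ y) = T.p₁ (T.act u x) * T.p₂ (T.act v y))
    (x : ℝ ⊗[ℚ] T.Z A) (y : ℝ ⊗[ℚ] T.Z B) :
    (T.act w).baseChange ℝ (bx A B x y) =
      bx A B ((T.act u).baseChange ℝ x) ((T.act v).baseChange ℝ y) := by
  induction x using TensorProduct.induction_on with
  | zero => simp
  | add x₁ x₂ h₁ h₂ => simp only [map_add, LinearMap.add_apply, h₁, h₂]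
  | tmul r x =>
    induction y using TensorProduct.induction_on with
    | zero => simp
    | add x₁ x₂ h₁ h₂ => simp only [map_add, h₁, h₂]
    | tmul s y =>
      rw [bx_tmul, LinearMap.baseChange_tmul, LinearMap.baseChange_tmul,
        LinearMap.baseChange_tmul, bx_tmul, hw]

theorem rep_boxSpan {q : LinearMap.BilinForm ℚ (T.Z (T.prod A B))}
    {c : T.Z (T.prod A B) →ₗ[ℚ] T.Z (T.prod A B)}
    (hc : Rep (T := T.toLefTheory) (T.prod A B) q c) {z : ℝ ⊗[ℚ] T.Z (T.prod A B)}
    (hz : z ∈ boxSpan A B) : c.baseChange ℝ z ∈ boxSpan A B := by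
  have h1 := T.commutant_prod A B c fun w _ x => hc.comm w x
  have h2 : ∀ a ∈ Submodule.span ℚ {a : T.Z (T.prod A B) →ₗ[ℚ] T.Z (T.prod A B) |
      ∃ w ∈ T.box A B, a = T.act w},
      ∀ z ∈ boxSpan A B, a.baseChange ℝ z ∈ boxSpan A B := by
    intro a ha
    induction ha using Submodule.span_induction with
    | mem a ha =>
      obtain ⟨w, hwb, rfl⟩ := ha
      obtain ⟨u, v, huv⟩ := T.box_apply w hwb
      intro z hz
      induction hz using Submodule.span_induction with
      | mem z hz =>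
        obtain ⟨x, y, rfl⟩ := hz
        rw [act_box_bx w u v huv]
        exact Submodule.subset_span ⟨_, _, rfl⟩
      | zero => rw [map_zero]; exact Submodule.zero_mem _
      | add x y _ _ hx hy => rw [map_add]; exact Submodule.add_mem _ hx hy
      | smul r x _ hx => rw [map_smul]; exact Submodule.smul_mem _ _ hx
    | zero =>
      intro z _
      rw [LinearMap.baseChange_zero, LinearMap.zero_apply]
      exact Submodule.zero_mem _
    | add a b _ _ ha hb =>
      intro z hz
      rw [LinearMap.baseChange_add, LinearMap.add_apply]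
      exact Submodule.add_mem _ (ha z hz) (hb z hz)
    | smul r a _ ha =>
      intro z hz
      rw [LinearMap.baseChange_smul, LinearMap.smul_apply]
      have : r • a.baseChange ℝ z = (r : ℝ) • a.baseChange ℝ z := by
        rw [Rat.cast_smul_eq_qsmul]
      rw [this]
      exact Submodule.smul_mem _ _ (ha z hz)
  exact h2 c h1 z hz

theorem aeval_mem {V : Type*} [AddCommGroup V] [Module ℝ V] (f : Module.End ℝ V)
    (S : Submodule ℝ V) (h : ∀ x ∈ S, f x ∈ S) (p : ℝ[X]) : ∀ x ∈ S, aeval f p x ∈ S := by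
  induction p using Polynomial.induction_on' with
  | add p q hp hq =>
    intro x hx
    rw [map_add, LinearMap.add_apply]
    exact Submodule.add_mem _ (hp x hx) (hq x hx)
  | monomial n a =>
    intro x hx
    rw [aeval_monomial, Module.End.mul_apply, Module.algebraMap_end_apply]
    refine Submodule.smul_mem _ _ ?_
    induction n with
    | zero => rw [pow_zero]; exact hx
    | succ n ih => rw [pow_succ', Module.End.mul_apply]; exact h _ ih

theorem sgn_boxSpan {z : ℝ ⊗[ℚ] T.Z (T.prod A B)} (hz : z ∈ boxSpan A B) :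
    sgn (T.prod A B) z ∈ boxSpan A B := by
  obtain ⟨q, c, p, hc, h⟩ := (isSign_sgn (T.prod A B)).ex
  rw [h]
  exact aeval_mem _ _ (fun x hx => rep_boxSpan hc hx) p z hz

theorem formR_eigen {A : T.Obj} {q : LinearMap.BilinForm ℚ (T.Z A)}
    {c : T.Z A →ₗ[ℚ] T.Z A} (hc : Rep (T := T.toLefTheory) A q c) {n : ℕ}
    (e : Fin n → ℝ ⊗[ℚ] T.Z A) {l : Fin n → ℝ} (hle : ∀ i, c.baseChange ℝ (e i) = l i • e i)
    (hlq : ∀ i j, q.baseChange ℝ (e i) (e j) = if i = j then 1 else 0) (i j : Fin n) :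
    formR T.toCycles A (e i) (e j) = if i = j then l i else 0 := by
  change LinearMap.BilinForm.baseChange ℝ (form T.toCycles A) (e i) (e j) = _
  rw [← baseChange_rep q _ c hc.rep, hle, map_smul, LinearMap.smul_apply, hlq, smul_eq_mul]
  split_ifs <;> simp

theorem mem_boxSpan_iff {n m : ℕ} (e : Module.Basis (Fin n) ℝ (ℝ ⊗[ℚ] T.Z A))
    (f : Module.Basis (Fin m) ℝ (ℝ ⊗[ℚ] T.Z B)) {z : ℝ ⊗[ℚ] T.Z (T.prod A B)}
    (hz : z ∈ boxSpan A B) : ∃ t : Fin n × Fin m → ℝ, z = ∑ i, t i • bx A B (e i.1) (f i.2) := by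
  induction hz using Submodule.span_induction with
  | mem z hz =>
    obtain ⟨x, y, rfl⟩ := hz
    refine ⟨fun i => e.repr x i.1 * f.repr y i.2, ?_⟩
    rw [Fintype.sum_prod_type_right]
    conv_lhs => rw [← e.sum_repr x, ← f.sum_repr y]
    rw [map_sum]
    refine Finset.sum_congr rfl fun j _ => ?_
    rw [map_sum, LinearMap.sum_apply]
    refine Finset.sum_congr rfl fun i _ => ?_
    rw [map_smul, map_smul, LinearMap.smul_apply, smul_smul, mul_comm]
  | zero => exact ⟨0, by simp⟩
  | add x y _ _ hx hy =>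
    obtain ⟨t, ht⟩ := hx
    obtain ⟨t', ht'⟩ := hy
    refine ⟨t + t', ?_⟩
    rw [ht, ht', ← Finset.sum_add_distrib]
    exact Finset.sum_congr rfl fun i _ => by rw [Pi.add_apply, add_smul]
  | smul r x _ hx =>
    obtain ⟨t, ht⟩ := hx
    refine ⟨r • t, ?_⟩
    rw [ht, Finset.smul_sum]
    exact Finset.sum_congr rfl fun i _ => by rw [Pi.smul_apply, smul_smul, smul_eq_mul]

/-- the sign involution is compatible with exterior products -/
theorem sgn_bx (x : ℝ ⊗[ℚ] T.Z A) (y : ℝ ⊗[ℚ] T.Z B) :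
    sgn (T.prod A B) (bx A B x y) = bx A B (sgn A x) (sgn B y) := by
  classical
  obtain ⟨q, c, hc⟩ := exists_rep (T := T.toLefTheory) A
  obtain ⟨q', c', hc'⟩ := exists_rep (T := T.toLefTheory) B
  obtain ⟨n, e, l, hl0, hle, hlq⟩ := exists_eigenbasis hc.pos c hc.symm hc.inj
  obtain ⟨m, f, k, hk0, hkf, hkq⟩ := exists_eigenbasis hc'.pos c' hc'.symm hc'.inj
  obtain ⟨S, hS⟩ := exists_signPoly hc
  obtain ⟨S', hS'⟩ := exists_signPoly hc'
  obtain ⟨p, hp⟩ := exists_poly ((S ∪ Finset.univ.image l) ∪ (S' ∪ Finset.univ.image k))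
  have hpA := hS p fun s hs => hp s (Finset.mem_union_left _ (Finset.mem_union_left _ hs))
  have hpB := hS' p fun s hs => hp s (Finset.mem_union_right _ (Finset.mem_union_left _ hs))
  have sA : IsSign A (aeval (c.baseChange ℝ) p) := ⟨⟨_, _, _, hc, rfl⟩, hpA.1, hpA.2⟩
  have sB : IsSign B (aeval (c'.baseChange ℝ) p) := ⟨⟨_, _, _, hc', rfl⟩, hpB.1, hpB.2⟩
  have tA : ∀ i, sgn A (e i) = sg (l i) • e i := by
    intro i
    rw [(isSign_sgn A).unique sA, aeval_eigen _ p (hle i), hp _ (Finset.mem_union_left _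
      (Finset.mem_union_right _ (Finset.mem_image_of_mem l (Finset.mem_univ i))))]
  have tB : ∀ j, sgn B (f j) = sg (k j) • f j := by
    intro j
    rw [(isSign_sgn B).unique sB, aeval_eigen _ p (hkf j), hp _ (Finset.mem_union_right _
      (Finset.mem_union_right _ (Finset.mem_image_of_mem k (Finset.mem_univ j))))]
  obtain ⟨u, hu⟩ := T.commutant A c fun u x => hc.comm u x
  obtain ⟨v, hv⟩ := T.commutant B c' fun u x => hc'.comm u x
  have hu' : T.act u = c := LinearMap.ext hu
  have hv' : T.act v = c' := LinearMap.ext hv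
  obtain ⟨wuv, _, hwuv⟩ := T.box_exists u v
  set Zt := (T.act wuv).baseChange ℝ with hZt
  have hZbx : ∀ i j, Zt (bx A B (e i) (f j)) = (l i * k j) • bx A B (e i) (f j) := by
    intro i j
    rw [hZt, act_box_bx wuv u v hwuv, hu', hv', hle, hkf, map_smul, map_smul, LinearMap.smul_apply, smul_smul,
      mul_comm]
  have hFA := formR_eigen hc e hle hlq
  have hFB := formR_eigen hc' f hkf hkq
  -- positivity on the span of the exterior products
  have hposZ : ∀ z ∈ boxSpan A B, 0 ≤ formR T.toCycles (T.prod A B) (Zt z) z := by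
    intro z hz
    obtain ⟨t, rfl⟩ := mem_boxSpan_iff e f hz
    have h1 : formR T.toCycles (T.prod A B) (Zt (∑ i, t i • bx A B (e i.1) (f i.2)))
        (∑ i, t i • bx A B (e i.1) (f i.2)) = ∑ i, (t i) ^ 2 * (l i.1 * k i.2) ^ 2 := by
      rw [map_sum]
      conv_lhs =>
        rw [map_sum]
      refine Finset.sum_congr rfl fun i _ => ?_
      rw [map_smul, map_sum, LinearMap.sum_apply, Finset.sum_eq_single i]
      · rw [map_smul, hZbx, map_smul, map_smul, LinearMap.smul_apply, LinearMap.smul_apply,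
          formR_bx, hFA, hFB, if_pos rfl, if_pos rfl, smul_eq_mul, smul_eq_mul, smul_eq_mul]
        ring
      · intro j _ hj
        rw [map_smul, hZbx, map_smul, map_smul, LinearMap.smul_apply, LinearMap.smul_apply,
          formR_bx, hFA, hFB]
        have : ¬ (j.1 = i.1 ∧ j.2 = i.2) := fun h => hj (Prod.ext h.1 h.2)
        by_cases h1 : j.1 = i.1
        · have h2 : ¬ j.2 = i.2 := fun h => this ⟨h1, h⟩
          rw [if_neg h2, mul_zero, smul_zero, smul_zero]
        · rw [if_neg h1, zero_mul, smul_zero, smul_zero]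
      · intro h
        exact absurd (Finset.mem_univ i) h
    rw [h1]
    exact Finset.sum_nonneg fun i _ => mul_nonneg (sq_nonneg _) (sq_nonneg _)
  -- the sign involution commutes with `Zt`
  have hcommZ : ∀ z, sgn (T.prod A B) (Zt z) = Zt (sgn (T.prod A B) z) := fun z => sgn_nat _ z
  have key : ∀ i j, sgn (T.prod A B) (bx A B (e i) (f j)) =
      (sg (l i) * sg (k j)) • bx A B (e i) (f j) := by
    intro i j
    set s := bx A B (e i) (f j) with hs
    set ε := sg (l i) * sg (k j) with hε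
    have hεε : ε * ε = 1 := by
      rw [hε, mul_mul_mul_comm, sg_sq, sg_sq, one_mul]
    have hsS : s ∈ boxSpan A B := Submodule.subset_span ⟨_, _, rfl⟩
    have h1 : sgn (T.prod A B) (s - ε • sgn (T.prod A B) s) =
        -(ε • (s - ε • sgn (T.prod A B) s)) := by
      rw [map_sub, map_smul, (isSign_sgn (T.prod A B)).invol, smul_sub, smul_smul, hεε, one_smul]
      abel
    have h2 : Zt (s - ε • sgn (T.prod A B) s) =
        (l i * k j) • (s - ε • sgn (T.prod A B) s) := by
      rw [map_sub, map_smul, ← hcommZ, hs, hZbx, map_smul, smul_sub, smul_comm]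
    have h3 : s - ε • sgn (T.prod A B) s ∈ boxSpan A B :=
      Submodule.sub_mem _ hsS (Submodule.smul_mem _ _ (sgn_boxSpan hsS))
    set w := s - ε • sgn (T.prod A B) s with hw
    have hw0 : w = 0 := by
      by_contra hne
      have h4 := (isSign_sgn (T.prod A B)).pos w hne
      rw [h1, map_neg, map_smul, smul_eq_mul] at h4
      have h5 := hposZ w h3
      rw [h2, map_smul, LinearMap.smul_apply, smul_eq_mul] at h5
      have h6 : 0 < (l i * sg (l i)) * (k j * sg (k j)) :=
        mul_pos (sg_mul_pos (hl0 i)) (sg_mul_pos (hk0 j))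
      have h7 : l i * k j = ((l i * sg (l i)) * (k j * sg (k j))) * ε := by
        rw [hε]
        calc l i * k j = (l i * k j) * ((sg (l i) * sg (l i)) * (sg (k j) * sg (k j))) := by
              rw [sg_sq, sg_sq, one_mul, mul_one]
          _ = _ := by ring
      rw [h7, mul_assoc] at h5
      have h8 := nonneg_of_mul_nonneg_right h5 h6
      linarith
    rw [hw, sub_eq_zero] at hw0
    have h9 := congrArg (fun z => ε • z) hw0
    simp only [smul_smul, hεε, one_smul] at h9
    exact h9.symm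
  -- conclude by bilinearity
  have hfin : (bx A B).compr₂ (sgn (T.prod A B)) = (bx A B).compl₁₂ (sgn A) (sgn B) := by
    refine e.ext fun i => f.ext fun j => ?_
    rw [LinearMap.compr₂_apply, LinearMap.compl₁₂_apply, key, tA, tB, map_smul, map_smul,
      LinearMap.smul_apply, smul_smul, mul_comm]
  have h := LinearMap.congr_fun (LinearMap.congr_fun hfin x) y
  rwa [LinearMap.compr₂_apply, LinearMap.compl₁₂_apply] at h

end Prod

/-- the sign involution is multiplicative -/
theorem sgn_mul (A : T.Obj) (x y : ℝ ⊗[ℚ] T.Z A) : sgn A (x * y) = sgn A x * sgn A y := by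
  obtain ⟨u, hu⟩ := T.cor_pull (T.diag A)
  have h1 : ∀ x y : ℝ ⊗[ℚ] T.Z A, (T.act u).baseChange ℝ (bx A A x y) = x * y := by
    intro x y
    induction x using TensorProduct.induction_on with
    | zero => simp
    | add x₁ x₂ h₁ h₂ => simp only [map_add, LinearMap.add_apply, h₁, h₂, add_mul]
    | tmul r x =>
      induction y using TensorProduct.induction_on with
      | zero => simp
      | add x₁ x₂ h₁ h₂ => simp only [map_add, h₁, h₂, mul_add]
      | tmul s y =>
        rw [bx_tmul, LinearMap.baseChange_tmul, Algebra.TensorProduct.tmul_mul_tmul, hu,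
          T.pull_diag]
  rw [← h1 x y, sgn_nat, sgn_bx, h1]

/-- the sign involution as an automorphism of the ring of real classes -/
noncomputable def sgnAut (A : T.Obj) : (ℝ ⊗[ℚ] T.Z A) ≃ₐ[ℝ] (ℝ ⊗[ℚ] T.Z A) :=
  AlgEquiv.ofLinearEquiv
    (LinearEquiv.ofInvolutive (sgn A) (isSign_sgn A).invol)
    (by
      have h1 : ∀ x : ℝ ⊗[ℚ] T.Z A, sgn A 1 * x = x := by
        intro x
        have h2 := sgn_mul A 1 (sgn A x)
        rw [one_mul, (isSign_sgn A).invol] at h2
        exact h2.symm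
      have h3 := h1 1
      rw [mul_one] at h3
      exact h3)
    (fun x y => sgn_mul A x y)

theorem sgnAut_apply (A : T.Obj) (x : ℝ ⊗[ℚ] T.Z A) : sgnAut A x = sgn A x := rfl

end Pc0b458i
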