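import Pool.Agent.Lib.Pc0b458t.Pos

/-!
Lefschetz decomposition, the star operator and the Lefschetz form.
-/

universe u

namespace Pc0b458i

variable {T : Cycles.{u}}

namespace Cycles

theorem L_pow_mem (A : T.Obj) (k : ℕ) : T.L A ^ k ∈ T.cod A k := by
  induction k with
  | zero => rw [pow_zero]; exact T.one_mem A
  | succ k ih => rw [pow_succ]; exact T.mul_mem A k 1 _ _ ih (T.L_mem A)

theorem mul_mem' (A : T.Obj) {i j k : ℕ} {x y : T.Z A} (hx : x ∈ T.cod A i) (hy : y ∈ T.cod A j)
    (h : i + j = k) : x * y ∈ T.cod A k := h ▸ T.mul_mem A i j x y hx hy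

theorem L_pow_mul_mem (A : T.Obj) {n k m : ℕ} {x : T.Z A} (hx : x ∈ T.cod A n) (h : k + n = m) :
    T.L A ^ k * x ∈ T.cod A m := mul_mem' A (L_pow_mem A k) hx h

end Cycles

open Cycles

/-- the Lefschetz strings of total codimension `n` -/
def Str (T : Cycles.{u}) (A : T.Obj) (n : ℕ) : Set (T.Z A) :=
  {x | ∃ (m a : ℕ) (z : T.Z A), 2 * m + a ≤ T.dim A ∧ m + a = n ∧ z ∈ T.cod A m ∧
    T.L A ^ (T.dim A - 2 * m + 1) * z = 0 ∧ x = T.L A ^ a * z}

theorem cod_le_span_low (A : T.Obj) : ∀ n, 2 * n ≤ T.dim A →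
    T.cod A n ≤ Submodule.span ℚ (Str T A n) := by
  intro n
  induction n with
  | zero =>
    intro _ x hx
    refine Submodule.subset_span ⟨0, 0, x, by omega, rfl, hx, ?_, by rw [pow_zero, one_mul]⟩
    exact T.cod_eq_zero A _ _ (Nat.lt_succ_self _) (L_pow_mul_mem A hx (by omega))
  | succ n ih =>
    intro hn x hx
    obtain ⟨w, hw, hw2⟩ := T.hl_surj A n (by omega) (T.L A ^ (T.dim A - 2 * (n + 1) + 1) * x)
      (L_pow_mul_mem A hx (by omega))
    have hz : x - T.L A * w ∈ T.cod A (n + 1) :=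
      Submodule.sub_mem _ hx (mul_mem' A (T.L_mem A) hw (by omega))
    have hzp : T.L A ^ (T.dim A - 2 * (n + 1) + 1) * (x - T.L A * w) = 0 := by
      rw [mul_sub, ← hw2, ← mul_assoc, ← pow_succ]
      have : T.dim A - 2 * n = T.dim A - 2 * (n + 1) + 1 + 1 := by omega
      rw [this, sub_self]
    have hx2 : x = (x - T.L A * w) + T.L A * w := by ring
    rw [hx2]
    refine Submodule.add_mem _ (Submodule.subset_span
      ⟨n + 1, 0, _, by omega, rfl, hz, hzp, by rw [pow_zero, one_mul]⟩) ?_
    have hw3 := ih (by omega) hw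
    clear hw2 hz hzp hx2 hx hw
    induction hw3 using Submodule.span_induction with
    | mem y hy =>
      obtain ⟨m, a, z, h1, h2, h3, h4, rfl⟩ := hy
      refine Submodule.subset_span ⟨m, a + 1, z, by omega, by omega, h3, h4, ?_⟩
      rw [← mul_assoc, ← pow_succ']
    | zero => rw [mul_zero]; exact Submodule.zero_mem _
    | add y y' _ _ h h' => rw [mul_add]; exact Submodule.add_mem _ h h'
    | smul r y _ h => rw [mul_smul_comm]; exact Submodule.smul_mem _ _ h

theorem cod_le_span (A : T.Obj) (n : ℕ) : T.cod A n ≤ Submodule.span ℚ (Str T A n) := by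
  rcases Nat.lt_or_ge (T.dim A) n with h | h
  · intro x hx
    rw [T.cod_eq_zero A n x h hx]
    exact Submodule.zero_mem _
  rcases Nat.lt_or_ge (T.dim A) (2 * n) with h' | h'
  · intro y hy
    obtain ⟨x, hx, rfl⟩ := T.hl_surj A (T.dim A - n) (by omega) y (by
      have : T.dim A - (T.dim A - n) = n := by omega
      rw [this]; exact hy)
    have hx3 := cod_le_span_low A _ (by omega) hx
    clear hy hx
    induction hx3 using Submodule.span_induction with
    | mem y hy =>
      obtain ⟨m, a, z, h1, h2, h3, h4, rfl⟩ := hy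
      refine Submodule.subset_span ⟨m, T.dim A - 2 * (T.dim A - n) + a, z, by omega, by omega,
        h3, h4, ?_⟩
      rw [← mul_assoc, ← pow_add]
    | zero => rw [mul_zero]; exact Submodule.zero_mem _
    | add y y' _ _ h h' => rw [mul_add]; exact Submodule.add_mem _ h h'
    | smul r y _ h => rw [mul_smul_comm]; exact Submodule.smul_mem _ _ h
  · exact cod_le_span_low A n h'

/-- induction over homogeneous classes -/
theorem cod_induction (A : T.Obj) {P : T.Z A → Prop} (h0 : P 0)
    (hadd : ∀ x y, P x → P y → P (x + y)) (hcod : ∀ n, ∀ x ∈ T.cod A n, P x) (x : T.Z A) :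
    P x := by
  have h : x ∈ ⨆ n, T.cod A n := by
    rw [(T.internal A).submodule_iSup_eq_top]; exact Submodule.mem_top
  induction h using Submodule.iSup_induction' with
  | mem n x hx => exact hcod n x hx
  | zero => exact h0
  | add x y _ _ hx hy => exact hadd x y hx hy

/-- induction over Lefschetz strings -/
theorem str_induction (A : T.Obj) {P : T.Z A → Prop} (h0 : P 0)
    (hadd : ∀ x y, P x → P y → P (x + y)) (hsmul : ∀ (r : ℚ) x, P x → P (r • x))
    (hstr : ∀ n, ∀ x ∈ Str T A n, P x) (x : T.Z A) : P x := by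
  refine cod_induction A h0 hadd (fun n x hx => ?_) x
  have := cod_le_span A n hx
  clear hx
  induction this using Submodule.span_induction with
  | mem y hy => exact hstr n y hy
  | zero => exact h0
  | add y y' _ _ h h' => exact hadd _ _ h h'
  | smul r y _ h => exact hsmul _ _ h

theorem star_star (A : T.Obj) (x : T.Z A) : T.star A (T.star A x) = x := by
  refine str_induction A (P := fun x => T.star A (T.star A x) = x) (by simp)
    (fun x y hx hy => ?_) (fun r x hx => ?_) (fun n x hx => ?_) x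
  · rw [map_add, map_add, hx, hy]
  · rw [map_smul, map_smul, hx]
  · obtain ⟨m, a, z, h1, h2, h3, h4, rfl⟩ := hx
    rw [T.star_prim A m a z h1 h3 h4, map_smul, T.star_prim A m _ z (by omega) h3 h4, smul_smul]
    have e : T.dim A - 2 * m - (T.dim A - 2 * m - a) = a := by omega
    rw [e]
    have f1 : ((a.factorial : ℕ) : ℚ) ≠ 0 := by exact_mod_cast a.factorial_ne_zero
    have f2 : (((T.dim A - 2 * m - a).factorial : ℕ) : ℚ) ≠ 0 := by
      exact_mod_cast (T.dim A - 2 * m - a).factorial_ne_zero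
    have h5 : ((-1 : ℚ) ^ m * (a.factorial : ℚ) / ((T.dim A - 2 * m - a).factorial : ℚ)) *
        ((-1) ^ m * ((T.dim A - 2 * m - a).factorial : ℚ) / (a.factorial : ℚ)) = 1 := by
      field_simp
      rw [← pow_mul, mul_comm m 2, pow_mul]
      norm_num
    rw [h5, one_smul]

theorem star_mem (A : T.Obj) {n : ℕ} (hn : n ≤ T.dim A) {x : T.Z A} (hx : x ∈ T.cod A n) :
    T.star A x ∈ T.cod A (T.dim A - n) := by
  have := cod_le_span A n hx
  clear hx
  induction this using Submodule.span_induction with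
  | mem y hy =>
    obtain ⟨m, a, z, h1, h2, h3, h4, rfl⟩ := hy
    rw [T.star_prim A m a z h1 h3 h4]
    exact Submodule.smul_mem _ _ (L_pow_mul_mem A h3 (by omega))
  | zero => rw [map_zero]; exact Submodule.zero_mem _
  | add y y' _ _ h h' => rw [map_add]; exact Submodule.add_mem _ h h'
  | smul r y _ h => rw [map_smul]; exact Submodule.smul_mem _ _ h

/-- classes of different codimensions are orthogonal -/
theorem form_cod (A : T.Obj) {n k : ℕ} (hnk : n ≠ k) {x y : T.Z A} (hx : x ∈ T.cod A n)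
    (hy : y ∈ T.cod A k) : form T A x y = 0 := by
  rcases Nat.lt_or_ge (T.dim A) k with h | h
  · rw [T.cod_eq_zero A k y h hy, map_zero]
  · rw [form_apply]
    exact T.deg_eq_zero A (n + (T.dim A - k)) _ (by omega)
      (T.mul_mem A _ _ _ _ hx (star_mem A h hy))

theorem form_prim (A : T.Obj) {a m' a' : ℕ} {z z' : T.Z A} (h1 : 2 * m' + a' ≤ T.dim A)
    (h3 : z' ∈ T.cod A m') (h4 : T.L A ^ (T.dim A - 2 * m' + 1) * z' = 0) :
    form T A (T.L A ^ a * z) (T.L A ^ a' * z') =
      ((-1) ^ m' * (a'.factorial : ℚ) / ((T.dim A - 2 * m' - a').factorial : ℚ)) *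
        T.deg A (T.L A ^ (a + (T.dim A - 2 * m' - a')) * (z * z')) := by
  rw [form_apply, T.star_prim A m' a' z' h1 h3 h4, mul_smul_comm, map_smul, smul_eq_mul, pow_add]
  congr 2
  ring

theorem form_symm_str (A : T.Obj) {n : ℕ} {x y : T.Z A} (hx : x ∈ Str T A n)
    (hy : y ∈ Str T A n) : form T A x y = form T A y x := by
  obtain ⟨m, a, z, h1, h2, h3, h4, rfl⟩ := hx
  obtain ⟨m', a', z', h1', h2', h3', h4', rfl⟩ := hy
  rw [form_prim A h1' h3' h4', form_prim A h1 h3 h4]
  rcases Nat.lt_trichotomy m m' with h | h | h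
  · have e1 : a + (T.dim A - 2 * m' - a') = (T.dim A - 2 * m' + 1) + (m' - m - 1) := by omega
    have e2 : a' + (T.dim A - 2 * m - a) = (T.dim A - 2 * m' + 1) + (m' - m - 1) := by omega
    have e3 : T.L A ^ ((T.dim A - 2 * m' + 1) + (m' - m - 1)) * (z * z') = 0 := by
      rw [pow_add]
      calc _ = T.L A ^ (m' - m - 1) * z * (T.L A ^ (T.dim A - 2 * m' + 1) * z') := by ring
        _ = 0 := by rw [h4', mul_zero]
    rw [e1, e2, mul_comm z' z, e3, map_zero, mul_zero, mul_zero]
  · have e1 : a = a' := by omega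
    subst h
    subst e1
    rw [mul_comm z' z]
  · have e1 : a + (T.dim A - 2 * m' - a') = (T.dim A - 2 * m + 1) + (m - m' - 1) := by omega
    have e2 : a' + (T.dim A - 2 * m - a) = (T.dim A - 2 * m + 1) + (m - m' - 1) := by omega
    have e3 : T.L A ^ ((T.dim A - 2 * m + 1) + (m - m' - 1)) * (z * z') = 0 := by
      rw [pow_add]
      calc _ = T.L A ^ (m - m' - 1) * z' * (T.L A ^ (T.dim A - 2 * m + 1) * z) := by ring
        _ = 0 := by rw [h4, mul_zero]
    rw [e1, e2, mul_comm z' z, e3, map_zero, mul_zero, mul_zero]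

theorem str_mem (A : T.Obj) {n : ℕ} {x : T.Z A} (hx : x ∈ Str T A n) : x ∈ T.cod A n := by
  obtain ⟨m, a, z, h1, h2, h3, h4, rfl⟩ := hx
  exact L_pow_mul_mem A h3 (by omega)

theorem form_symm (A : T.Obj) (x y : T.Z A) : form T A x y = form T A y x := by
  refine str_induction A (P := fun x => form T A x y = form T A y x) (by simp)
    (fun x x' hx hx' => ?_) (fun r x hx => ?_) (fun n x hx => ?_) x
  · simp only [map_add, LinearMap.add_apply, hx, hx']
  · simp only [map_smul, LinearMap.smul_apply, hx]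
  · refine str_induction A (P := fun y => form T A x y = form T A y x) (by simp)
      (fun y y' hy hy' => ?_) (fun r y hy => ?_) (fun k y hy => ?_) y
    · simp only [map_add, LinearMap.add_apply, hy, hy']
    · simp only [map_smul, LinearMap.smul_apply, hy]
    · by_cases hnk : n = k
      · subst hnk
        exact form_symm_str A hx hy
      · rw [form_cod A hnk (str_mem A hx) (str_mem A hy),
          form_cod A (Ne.symm hnk) (str_mem A hy) (str_mem A hx)]

/-- the value of the form on a primitive class -/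
theorem form_prim_self (A : T.Obj) {n : ℕ} (hn : 2 * n ≤ T.dim A) {x : T.Z A}
    (hx : x ∈ T.cod A n) (hp : T.L A ^ (T.dim A - 2 * n + 1) * x = 0) :
    ((T.dim A - 2 * n).factorial : ℚ) * form T A x x =
      (-1) ^ n * T.deg A (x * x * T.L A ^ (T.dim A - 2 * n)) := by
  have h := form_prim (T := T) (a := 0) (z := x) A (a' := 0) (by omega) hx hp
  rw [pow_zero, one_mul, zero_add, Nat.sub_zero, Nat.factorial_zero, Nat.cast_one, mul_one] at h
  rw [h, mul_comm (T.L A ^ _)]
  have f2 : (((T.dim A - 2 * n).factorial : ℕ) : ℚ) ≠ 0 := by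
    exact_mod_cast (T.dim A - 2 * n).factorial_ne_zero
  field_simp

theorem star_prim0 (A : T.Obj) {n : ℕ} (hn : 2 * n ≤ T.dim A) {x : T.Z A}
    (hx : x ∈ T.cod A n) (hp : T.L A ^ (T.dim A - 2 * n + 1) * x = 0) :
    T.star A x = ((-1) ^ n / ((T.dim A - 2 * n).factorial : ℚ)) •
      (T.L A ^ (T.dim A - 2 * n) * x) := by
  have h := T.star_prim A n 0 x (by omega) hx hp
  rwa [pow_zero, one_mul, Nat.sub_zero, Nat.factorial_zero, Nat.cast_one, mul_one] at h

/-- a class `y` with `L * star y = 0` is primitive -/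
theorem prim_of_star (A : T.Obj) {n : ℕ} {y : T.Z A} (hy : y ∈ T.cod A n)
    (h : T.L A * T.star A y = 0) :
    (2 * n ≤ T.dim A ∧ T.L A ^ (T.dim A - 2 * n + 1) * y = 0) ∨ y = 0 := by
  rcases Nat.lt_or_ge (T.dim A) n with hn | hn
  · exact Or.inr (T.cod_eq_zero A n y hn hy)
  have hw := star_mem A hn hy
  rcases Nat.lt_or_ge (T.dim A) (2 * n) with hn2 | hn2
  · right
    have h1 : T.star A y = 0 := by
      refine T.hl_inj A (T.dim A - n) (by omega) _ hw ?_
      have e : T.dim A - 2 * (T.dim A - n) = (T.dim A - 2 * (T.dim A - n) - 1) + 1 := by omega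
      rw [e, pow_succ, mul_assoc, h, mul_zero]
    rw [← star_star A y, h1, map_zero]
  · left
    refine ⟨hn2, ?_⟩
    obtain ⟨x, hx, hx2⟩ := T.hl_surj A n hn2 _ hw
    have hxp : T.L A ^ (T.dim A - 2 * n + 1) * x = 0 := by
      rw [pow_succ', mul_assoc, hx2, h]
    have h2 := star_prim0 A hn2 hx hxp
    rw [hx2] at h2
    have h3 := congrArg (T.star A) h2
    rw [map_smul, star_star, star_star] at h3
    have f2 : (((T.dim A - 2 * n).factorial : ℕ) : ℚ) ≠ 0 := by
      exact_mod_cast (T.dim A - 2 * n).factorial_ne_zero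
    rw [h3, mul_smul_comm] at hxp
    rcases smul_eq_zero.1 hxp with h4 | h4
    · exfalso
      revert h4
      positivity
    · exact h4

end Pc0b458i
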