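import Pool.Agent.Lib.Pc0b458t.Theory

/-!
Positive definite rational forms; a positive definite form on the cycle classes which is
compatible with all Lefschetz correspondences between the members of a finite family.
-/

universe u

namespace Pc0b458i

section PD

/-- symmetric positive definite forms -/
structure PosForm {V : Type*} [AddCommGroup V] [Module ℚ V] (q : LinearMap.BilinForm ℚ V) :
    Prop where
  symm : ∀ x y, q x y = q y x
  pos : ∀ x, x ≠ 0 → 0 < q x x

variable {V : Type*} [AddCommGroup V] [Module ℚ V]

theorem PosForm.exists_section [Module.Finite ℚ V] {M : Type*} [AddCommGroup M] [Module ℚ M]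
    {q : LinearMap.BilinForm ℚ V} (hq : PosForm q) (π : V →ₗ[ℚ] M)
    (hπ : Function.Surjective π) :
    ∃ s : M →ₗ[ℚ] V, (∀ x, π (s x) = x) ∧ (∀ x k, π k = 0 → q k (s x) = 0) := by
  have hrefl : q.IsRefl := by
    intro x y h; rw [hq.symm]; exact h
  have hdis : Disjoint (LinearMap.ker π) (q.orthogonal (LinearMap.ker π)) := by
    rw [Submodule.disjoint_def]
    intro x hx hx'
    by_contra hne
    have h1 := hq.pos x hne
    rw [LinearMap.BilinForm.mem_orthogonal_iff] at hx'
    have h2 : q x x = 0 := hx' x hx
    exact h1.ne' h2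
  have hc : IsCompl (LinearMap.ker π) (q.orthogonal (LinearMap.ker π)) :=
    (LinearMap.BilinForm.isCompl_orthogonal_iff_disjoint hrefl).2 hdis
  obtain ⟨r, hr⟩ := π.exists_rightInverse_of_surjective (LinearMap.range_eq_top.2 hπ)
  refine ⟨(Submodule.projection _ _ hc.symm) ∘ₗ r, fun x => ?_, fun x k hk => ?_⟩
  · have h1 : r x - Submodule.projection _ _ hc.symm (r x) ∈ LinearMap.ker π := by
      rw [← Submodule.projection_apply_eq_zero_iff hc.symm, map_sub, sub_eq_zero]
      exact (Submodule.projection_apply_of_mem_left hc.symm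
        (Submodule.projection_apply_mem hc.symm _)).symm
    rw [LinearMap.mem_ker, map_sub, sub_eq_zero] at h1
    rw [LinearMap.comp_apply, ← h1]
    exact LinearMap.congr_fun hr x
  · have h1 := Submodule.projection_apply_mem hc.symm (r x)
    rw [LinearMap.BilinForm.mem_orthogonal_iff] at h1
    exact h1 k hk

theorem PosForm.unique {M : Type*} [AddCommGroup M] [Module ℚ M]
    {q : LinearMap.BilinForm ℚ V} (hq : PosForm q) (π : V →ₗ[ℚ] M) {v w : V}
    (h : π v = π w) (hv : ∀ k, π k = 0 → q k v = 0) (hw : ∀ k, π k = 0 → q k w = 0) :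
    v = w := by
  by_contra hne
  have h1 := hq.pos (v - w) (sub_ne_zero.2 hne)
  have h2 : π (v - w) = 0 := by rw [map_sub, h, sub_self]
  have h3 := hv _ h2
  have h4 := hw _ h2
  rw [map_sub (q (v - w)), h3, h4] at h1
  simp at h1

theorem PosForm.nondegenerate {q : LinearMap.BilinForm ℚ V} (hq : PosForm q) :
    q.Nondegenerate := by
  constructor
  · intro x hx
    by_contra hne
    exact (hq.pos x hne).ne' (hx x)
  · intro x hx
    by_contra hne
    exact (hq.pos x hne).ne' (hx x)

/-- a form is represented by an endomorphism with respect to a positive definite form -/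
theorem PosForm.exists_rep [Module.Finite ℚ V] {q : LinearMap.BilinForm ℚ V} (hq : PosForm q)
    (b : V →ₗ[ℚ] V →ₗ[ℚ] ℚ) : ∃ c : V →ₗ[ℚ] V, ∀ x y, q (c x) y = b x y := by
  refine ⟨(q.toDual hq.nondegenerate).symm.toLinearMap ∘ₗ b, fun x y => ?_⟩
  exact LinearMap.BilinForm.apply_toDual_symm_apply (hB := hq.nondegenerate) _ _

end PD

section Family

variable (T : LefTheory.{u})

/-- the Lefschetz form `deg (x * star y)` -/
noncomputable def form (T : Cycles.{u}) (A : T.Obj) : LinearMap.BilinForm ℚ (T.Z A) :=
  LinearMap.mk₂ ℚ (fun x y => T.deg A (x * T.star A y))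
    (fun x x' y => by rw [add_mul, map_add])
    (fun r x y => by rw [smul_mul_assoc, map_smul])
    (fun x y y' => by rw [map_add, mul_add, map_add])
    (fun r x y => by rw [map_smul, mul_smul_comm, map_smul])

theorem form_apply (T : Cycles.{u}) (A : T.Obj) (x y : T.Z A) :
    form T A x y = T.deg A (x * T.star A y) := rfl

variable {T}

theorem form_dag {A B : T.Obj} (u : T.Cor A B) (x : T.Z A) (y : T.Z B) :
    form T.toCycles B (T.act u x) y = form T.toCycles A x (T.act (T.dag u) y) :=
  T.act_dag u x y

variable {J : Type} [Fintype J] (C : J → T.Obj) (b : ∀ j, T.Z (C j))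

/-- families of correspondences -/
abbrev Fam (C : J → T.Obj) (A : T.Obj) : Type u := ∀ j, T.Cor (C j) A

/-- the trace form on families -/
noncomputable def famForm (A : T.Obj) : LinearMap.BilinForm ℚ (Fam C A) :=
  LinearMap.mk₂ ℚ (fun u v => ∑ j, T.tr (T.comp (T.dag (u j)) (v j)))
    (fun x x' y => by
      rw [← Finset.sum_add_distrib]
      exact Finset.sum_congr rfl fun j _ => by
        rw [Pi.add_apply, map_add, map_add, LinearMap.add_apply, map_add])
    (fun r x y => by
      rw [Finset.smul_sum]
      exact Finset.sum_congr rfl fun j _ => by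
        rw [Pi.smul_apply, map_smul, map_smul, LinearMap.smul_apply, map_smul])
    (fun x y y' => by
      rw [← Finset.sum_add_distrib]
      exact Finset.sum_congr rfl fun j _ => by
        rw [Pi.add_apply, map_add, map_add])
    (fun r x y => by
      rw [Finset.smul_sum]
      exact Finset.sum_congr rfl fun j _ => by
        rw [Pi.smul_apply, map_smul, map_smul])

theorem famForm_apply (A : T.Obj) (u v : Fam C A) :
    famForm C A u v = ∑ j, T.tr (T.comp (T.dag (u j)) (v j)) := rfl

theorem famForm_pos (A : T.Obj) : PosForm (famForm C A) where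
  symm u v := by
    rw [famForm_apply, famForm_apply]
    refine Finset.sum_congr rfl fun j _ => ?_
    rw [← T.tr_dag, T.dag_comp, T.dag_dag]
  pos u hu := by
    rw [famForm_apply]
    obtain ⟨j, hj⟩ := Function.ne_iff.1 hu
    refine Finset.sum_pos' (fun i _ => ?_) ⟨j, Finset.mem_univ j, T.tr_pos (u j) hj⟩
    by_cases h : u i = 0
    · rw [h, map_zero, map_zero]
    · exact (T.tr_pos (u i) h).le

/-- the cycle class generated by a family -/
noncomputable def famMap (A : T.Obj) : Fam C A →ₗ[ℚ] T.Z A :=
  ∑ j, (LinearMap.flip T.act (b j)) ∘ₗ LinearMap.proj j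

theorem famMap_apply (A : T.Obj) (u : Fam C A) : famMap C b A u = ∑ j, T.act (u j) (b j) := by
  rw [famMap, LinearMap.sum_apply]
  rfl

/-- composition with a correspondence -/
def famComp {A B : T.Obj} (w : T.Cor A B) (u : Fam C A) : Fam C B := fun j => T.comp w (u j)

theorem famMap_comp {A B : T.Obj} (w : T.Cor A B) (u : Fam C A) :
    famMap C b B (famComp C w u) = T.act w (famMap C b A u) := by
  rw [famMap_apply, famMap_apply, map_sum]
  exact Finset.sum_congr rfl fun j _ => T.act_comp _ _ _

theorem famForm_comp {A B : T.Obj} (w : T.Cor A B) (u : Fam C A) (v : Fam C B) :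
    famForm C B (famComp C w u) v = famForm C A u (famComp C (T.dag w) v) := by
  rw [famForm_apply, famForm_apply]
  refine Finset.sum_congr rfl fun j _ => ?_
  change T.tr (T.comp (T.dag (T.comp w (u j))) (v j)) =
    T.tr (T.comp (T.dag (u j)) (T.comp (T.dag w) (v j)))
  rw [T.dag_comp, T.comp_assoc]

/-- Compatible positive definite forms on the cycle classes of all objects whose classes are
generated by the family `b`. -/
theorem exists_forms : ∃ q : ∀ A : T.Obj, LinearMap.BilinForm ℚ (T.Z A),
    (∀ A, Function.Surjective (famMap C b A) → PosForm (q A)) ∧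
    (∀ A B, Function.Surjective (famMap C b A) → Function.Surjective (famMap C b B) →
      ∀ (w : T.Cor A B) x y, q B (T.act w x) y = q A x (T.act (T.dag w) y)) := by
  classical
  have h1 : ∀ A : T.Obj, ∃ s : T.Z A →ₗ[ℚ] Fam C A, Function.Surjective (famMap C b A) →
      (∀ x, famMap C b A (s x) = x) ∧
      (∀ x k, famMap C b A k = 0 → famForm C A k (s x) = 0) := by
    intro A
    by_cases h : Function.Surjective (famMap C b A)
    · obtain ⟨s, hs⟩ := (famForm_pos C A).exists_section (famMap C b A) h
      exact ⟨s, fun _ => hs⟩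
    · exact ⟨0, fun h' => absurd h' h⟩
  choose s hs using h1
  have hnat : ∀ A B, Function.Surjective (famMap C b A) → Function.Surjective (famMap C b B) →
      ∀ (w : T.Cor A B) x, famComp C w (s A x) = s B (T.act w x) := by
    intro A B hA hB w x
    refine (famForm_pos C B).unique (famMap C b B) ?_ (fun k hk => ?_) ((hs B hB).2 _)
    · rw [famMap_comp, (hs A hA).1, (hs B hB).1]
    · rw [(famForm_pos C B).symm, famForm_comp, (famForm_pos C A).symm]
      exact (hs A hA).2 x _ (by rw [famMap_comp, hk, map_zero])
  refine ⟨fun A => (famForm C A).compl₁₂ (s A) (s A), fun A hA => ⟨fun x y => ?_, fun x hx => ?_⟩,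
    fun A B hA hB w x y => ?_⟩
  · simp only [LinearMap.compl₁₂_apply]
    exact (famForm_pos C A).symm _ _
  · simp only [LinearMap.compl₁₂_apply]
    refine (famForm_pos C A).pos _ fun h => hx ?_
    rw [← (hs A hA).1 x, h, map_zero]
  · simp only [LinearMap.compl₁₂_apply]
    rw [← hnat A B hA hB, famForm_comp, hnat B A hB hA]

end Family

end Pc0b458i
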