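import Pool.Agent.Lib.Pc0b458t.Lef

/-!
The Lefschetz form is represented, with respect to a compatible positive definite form, by an
operator which commutes with the Lefschetz correspondences.
-/

universe u

namespace Pc0b458i

variable {T : LefTheory.{u}}

/-- the projection to the classes of codimension `n` -/
noncomputable def pr (A : T.Obj) (n : ℕ) : T.Z A →ₗ[ℚ] T.Z A :=
  T.act (Classical.choose (T.cor_proj A n))

theorem pr_cod (A : T.Obj) (n : ℕ) {k : ℕ} {x : T.Z A} (hx : x ∈ T.cod A k) :
    pr A n x = if k = n then x else 0 :=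
  Classical.choose_spec (T.cor_proj A n) k x hx

theorem pr_mem (A : T.Obj) (n : ℕ) (x : T.Z A) : pr A n x ∈ T.cod A n := by
  refine cod_induction (T := T.toCycles) A (P := fun x => pr A n x ∈ T.cod A n)
    (by rw [map_zero]; exact Submodule.zero_mem _)
    (fun x y hx hy => by rw [map_add]; exact Submodule.add_mem _ hx hy) (fun k x hx => ?_) x
  rw [pr_cod A n hx]
  split_ifs with h
  · exact h ▸ hx
  · exact Submodule.zero_mem _

theorem sum_pr (A : T.Obj) (x : T.Z A) : ∑ n ∈ Finset.range (T.dim A + 1), pr A n x = x := by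
  refine cod_induction (T := T.toCycles) A
    (P := fun x => ∑ n ∈ Finset.range (T.dim A + 1), pr A n x = x)
    (by simp) (fun x y hx hy => by simp only [map_add, Finset.sum_add_distrib, hx, hy])
    (fun k x hx => ?_) x
  rcases Nat.lt_or_ge (T.dim A) k with h | h
  · rw [T.cod_eq_zero A k x h hx]; simp
  · rw [Finset.sum_eq_single k]
    · rw [pr_cod A k hx, if_pos rfl]
    · intro n _ hn
      rw [pr_cod A n hx, if_neg (Ne.symm hn)]
    · intro hk
      exact absurd (Finset.mem_range.2 (by omega)) hk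

theorem deg_nondeg (A : T.Obj) {w : T.Z A} (h : ∀ x, T.deg A (x * w) = 0) : w = 0 := by
  rw [← sum_pr A w]
  refine Finset.sum_eq_zero fun n hn => ?_
  have hn' : n ≤ T.dim A := by
    have := Finset.mem_range.1 hn
    omega
  refine T.num_eq A n (T.dim A - n) _ (by omega) (pr_mem A n w) fun y hy => ?_
  have key : ∀ v : T.Z A, T.deg A (pr A n v * y) = T.deg A (v * y) := by
    intro v
    refine cod_induction (T := T.toCycles) A
      (P := fun v => T.deg A (pr A n v * y) = T.deg A (v * y)) (by simp)
      (fun x y hx hy => by rw [map_add, add_mul, add_mul, map_add, map_add, hx, hy])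
      (fun k x hx => ?_) v
    rw [pr_cod A n hx]
    split_ifs with hk
    · rfl
    · rw [zero_mul, map_zero]
      exact (T.deg_eq_zero A (k + (T.dim A - n)) _ (by omega) (T.mul_mem A _ _ _ _ hx hy)).symm
  rw [key, mul_comm]
  exact h y

theorem form_nondeg (A : T.Obj) {y : T.Z A} (h : ∀ x, form T.toCycles A x y = 0) : y = 0 := by
  have h1 : T.star A y = 0 := deg_nondeg A fun x => h x
  rw [← star_star (T := T.toCycles) A y, h1, map_zero]

section

variable {J : Type} [Fintype J] (C : J → T.Obj) (b : ∀ j, T.Z (C j))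

/-- `q` is a compatible positive definite form, and the Lefschetz form is `q (c x) y` -/
structure Rep (A : T.Obj) (q : LinearMap.BilinForm ℚ (T.Z A)) (c : T.Z A →ₗ[ℚ] T.Z A) :
    Prop where
  pos : PosForm q
  rep : ∀ x y, q (c x) y = form T.toCycles A x y
  comm : ∀ (u : T.Cor A A) x, c (T.act u x) = T.act u (c x)

theorem Rep.symm {A : T.Obj} {q : LinearMap.BilinForm ℚ (T.Z A)} {c : T.Z A →ₗ[ℚ] T.Z A}
    (h : Rep A q c) (x y : T.Z A) : q (c x) y = q x (c y) := by
  rw [h.rep, h.pos.symm, h.rep, form_symm]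

theorem Rep.inj {A : T.Obj} {q : LinearMap.BilinForm ℚ (T.Z A)} {c : T.Z A →ₗ[ℚ] T.Z A}
    (h : Rep A q c) : Function.Injective c := by
  rw [injective_iff_map_eq_zero]
  intro y hy
  refine form_nondeg A fun x => ?_
  rw [form_symm, ← h.rep, hy, map_zero, LinearMap.zero_apply]

theorem exists_rep_fam : ∃ (q : ∀ A : T.Obj, LinearMap.BilinForm ℚ (T.Z A))
    (c : ∀ A : T.Obj, T.Z A →ₗ[ℚ] T.Z A),
    (∀ A, Function.Surjective (famMap C b A) → Rep A (q A) (c A)) ∧
    (∀ A B, Function.Surjective (famMap C b A) → Function.Surjective (famMap C b B) →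
      ∀ (w : T.Cor A B) x, c B (T.act w x) = T.act w (c A x)) := by
  classical
  obtain ⟨q, hq1, hq2⟩ := exists_forms (T := T) C b
  have h1 : ∀ A : T.Obj, ∃ c : T.Z A →ₗ[ℚ] T.Z A, Function.Surjective (famMap C b A) →
      ∀ x y, q A (c x) y = form T.toCycles A x y := by
    intro A
    by_cases h : Function.Surjective (famMap C b A)
    · obtain ⟨c, hc⟩ := (hq1 A h).exists_rep (form T.toCycles A)
      exact ⟨c, fun _ => hc⟩
    · exact ⟨0, fun h' => absurd h' h⟩
  choose c hc using h1
  have hnat : ∀ A B, Function.Surjective (famMap C b A) → Function.Surjective (famMap C b B) →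
      ∀ (w : T.Cor A B) x, c B (T.act w x) = T.act w (c A x) := by
    intro A B hA hB w x
    have hn := (hq1 B hB).nondegenerate
    rw [← sub_eq_zero]
    refine hn.1 _ fun z => ?_
    rw [map_sub, LinearMap.sub_apply, hc B hB, hq2 A B hA hB, hc A hA, form_dag, sub_self]
  exact ⟨q, c, fun A hA => ⟨hq1 A hA, hc A hA, fun u x => hnat A A hA hA u x⟩, hnat⟩

end

/-- compatible representations for two objects -/
theorem exists_rep_pair (A B : T.Obj) : ∃ (q : ∀ A : T.Obj, LinearMap.BilinForm ℚ (T.Z A))
    (c : ∀ A : T.Obj, T.Z A →ₗ[ℚ] T.Z A), Rep A (q A) (c A) ∧ Rep B (q B) (c B) ∧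
    ∀ (w : T.Cor A B) x, c B (T.act w x) = T.act w (c A x) := by
  classical
  let eA := Module.finBasis ℚ (T.Z A)
  let eB := Module.finBasis ℚ (T.Z B)
  let J := Fin (Module.finrank ℚ (T.Z A)) ⊕ Fin (Module.finrank ℚ (T.Z B))
  let C : J → T.Obj := fun j => Sum.casesOn j (fun _ => A) (fun _ => B)
  let b : ∀ j, T.Z (C j) := fun j => match j with
    | Sum.inl i => eA i
    | Sum.inr i => eB i
  obtain ⟨q, c, h1, h2⟩ := exists_rep_fam (T := T) C b
  have hA : Function.Surjective (famMap C b A) := by
    intro x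
    let u : Fam C A := fun j => match j with
      | Sum.inl i => (eA.repr x i) • T.one A
      | Sum.inr _ => 0
    refine ⟨u, ?_⟩
    rw [famMap_apply, Fintype.sum_sum_type]
    have e1 : ∀ i, T.act (u (Sum.inl i)) (b (Sum.inl i)) = eA.repr x i • eA i := by
      intro i
      change T.act ((eA.repr x i) • T.one A) (eA i) = _
      rw [map_smul, LinearMap.smul_apply, T.act_one]
    have e2 : ∀ i, T.act (u (Sum.inr i)) (b (Sum.inr i)) = 0 := by
      intro i
      change T.act (0 : T.Cor B A) (eB i) = 0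
      rw [map_zero, LinearMap.zero_apply]
    simp only [e1, e2, Finset.sum_const_zero, add_zero]
    exact eA.sum_repr x
  have hB : Function.Surjective (famMap C b B) := by
    intro x
    let u : Fam C B := fun j => match j with
      | Sum.inl _ => 0
      | Sum.inr i => (eB.repr x i) • T.one B
    refine ⟨u, ?_⟩
    rw [famMap_apply, Fintype.sum_sum_type]
    have e1 : ∀ i, T.act (u (Sum.inr i)) (b (Sum.inr i)) = eB.repr x i • eB i := by
      intro i
      change T.act ((eB.repr x i) • T.one B) (eB i) = _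
      rw [map_smul, LinearMap.smul_apply, T.act_one]
    have e2 : ∀ i, T.act (u (Sum.inl i)) (b (Sum.inl i)) = 0 := by
      intro i
      change T.act (0 : T.Cor A B) (eA i) = 0
      rw [map_zero, LinearMap.zero_apply]
    simp only [e1, e2, Finset.sum_const_zero, zero_add]
    exact eB.sum_repr x
  exact ⟨q, c, h1 A hA, h1 B hB, h2 A B hA hB⟩

theorem exists_rep (A : T.Obj) : ∃ (q : LinearMap.BilinForm ℚ (T.Z A))
    (c : T.Z A →ₗ[ℚ] T.Z A), Rep A q c := by
  obtain ⟨q, c, h, _, _⟩ := exists_rep_pair A A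
  exact ⟨_, _, h⟩

end Pc0b458i
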