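import Pool.Agent.Lib.Pc0b458t.Tot

/-!
The sign of the representing operator.
-/

open TensorProduct Polynomial

universe u

namespace Pc0b458i

/-- the real Lefschetz form -/
noncomputable def formR (T : Cycles.{u}) (A : T.Obj) : LinearMap.BilinForm ℝ (ℝ ⊗[ℚ] T.Z A) :=
  LinearMap.BilinForm.baseChange ℝ (form T A)

/-- the sign of a nonzero real number -/
noncomputable def sg (l : ℝ) : ℝ := if 0 < l then 1 else -1

theorem sg_sq (l : ℝ) : sg l * sg l = 1 := by
  unfold sg; split_ifs <;> norm_num

theorem sg_mul_pos {l : ℝ} (hl : l ≠ 0) : 0 < l * sg l := by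
  unfold sg
  split_ifs with h
  · rwa [mul_one]
  · have : l < 0 := lt_of_le_of_ne (not_lt.1 h) hl
    linarith

theorem aeval_eigen {V : Type*} [AddCommGroup V] [Module ℝ V] (f : Module.End ℝ V) (p : ℝ[X])
    {l : ℝ} {x : V} (h : f x = l • x) : aeval f p x = p.eval l • x := by
  induction p using Polynomial.induction_on' with
  | add p q hp hq => rw [map_add, LinearMap.add_apply, hp, hq, eval_add, add_smul]
  | monomial n a =>
    rw [aeval_monomial, eval_monomial, Module.End.mul_apply, Module.algebraMap_end_apply]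
    have h1 : (f ^ n) x = l ^ n • x := by
      induction n with
      | zero => rw [pow_zero, pow_zero, one_smul]; rfl
      | succ n ih => rw [pow_succ', Module.End.mul_apply, ih, map_smul, h, smul_smul, pow_succ]
    rw [h1, smul_smul]

theorem aeval_intertwine {V W : Type*} [AddCommGroup V] [Module ℝ V] [AddCommGroup W]
    [Module ℝ W] (f : Module.End ℝ V) (g : Module.End ℝ W) (u : V →ₗ[ℝ] W)
    (h : ∀ x, g (u x) = u (f x)) (p : ℝ[X]) (x : V) : aeval g p (u x) = u (aeval f p x) := by
  induction p using Polynomial.induction_on' with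
  | add p q hp hq => rw [map_add, map_add, LinearMap.add_apply, LinearMap.add_apply, hp, hq,
      map_add]
  | monomial n a =>
    rw [aeval_monomial, aeval_monomial, Module.End.mul_apply, Module.End.mul_apply,
      Module.algebraMap_end_apply, Module.algebraMap_end_apply, map_smul]
    have h1 : ∀ x, (g ^ n) (u x) = u ((f ^ n) x) := by
      induction n with
      | zero => intro x; rw [pow_zero, pow_zero]; rfl
      | succ n ih => intro x; rw [pow_succ, pow_succ, Module.End.mul_apply, h, ih,
          Module.End.mul_apply]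
    rw [h1]

/-- two commuting involutions with the same positivity are equal -/
theorem invol_unique {V : Type*} [AddCommGroup V] [Module ℝ V] (b : LinearMap.BilinForm ℝ V)
    (s t : V →ₗ[ℝ] V) (hs : ∀ x, s (s x) = x) (ht : ∀ x, t (t x) = x)
    (hst : ∀ x, s (t x) = t (s x)) (hsp : ∀ x, x ≠ 0 → 0 < b x (s x))
    (htp : ∀ x, x ≠ 0 → 0 < b x (t x)) (x : V) : s x = t x := by
  by_contra hne
  -- `w = s x - t x` satisfies `s (t w) = - w`
  have h1 : s (t (s x - t x)) = -(s x - t x) := by
    rw [map_sub, map_sub, hst (s x), hs, ht]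
    abel
  have hw : s x - t x ≠ 0 := sub_ne_zero.2 hne
  set w := s x - t x with hwdef
  have h2 : t w = - s w := by
    have := congrArg s h1
    rw [hs, map_neg] at this
    exact this
  have h3 := hsp w hw
  have h4 := htp w hw
  rw [h2, map_neg] at h4
  linarith

section

variable {T : LefTheory.{u}}

theorem exists_signPoly {A : T.Obj} {q : LinearMap.BilinForm ℚ (T.Z A)}
    {c : T.Z A →ₗ[ℚ] T.Z A} (hc : Rep A q c) : ∃ S : Finset ℝ, ∀ p : ℝ[X],
      (∀ s ∈ S, p.eval s = sg s) →
      (∀ x, aeval (c.baseChange ℝ) p (aeval (c.baseChange ℝ) p x) = x) ∧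
      (∀ x, x ≠ 0 → 0 < formR T.toCycles A x (aeval (c.baseChange ℝ) p x)) := by
  classical
  obtain ⟨n, e, l, hl0, hle, hlq⟩ := exists_eigenbasis hc.pos c hc.symm hc.inj
  refine ⟨Finset.univ.image l, fun p hp => ?_⟩
  have hp' : ∀ i, p.eval (l i) = sg (l i) := fun i =>
    hp _ (Finset.mem_image_of_mem l (Finset.mem_univ i))
  have ht : ∀ i, aeval (c.baseChange ℝ) p (e i) = sg (l i) • e i := by
    intro i
    rw [aeval_eigen _ p (hle i), hp']
  constructor
  · intro x
    have h1 : (aeval (c.baseChange ℝ) p) * (aeval (c.baseChange ℝ) p) =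
        (1 : Module.End ℝ (ℝ ⊗[ℚ] T.Z A)) := by
      refine e.ext fun i => ?_
      rw [Module.End.mul_apply, ht, map_smul, ht, smul_smul, sg_sq, one_smul]
      rfl
    exact LinearMap.congr_fun h1 x
  · intro x hx
    have h2 : formR T.toCycles A x (aeval (c.baseChange ℝ) p x) =
        ∑ i, (e.repr x i) ^ 2 * (l i * sg (l i)) := by
      have h3 : ∀ i j, formR T.toCycles A (e i) (e j) = if i = j then l i else 0 := by
        intro i j
        change LinearMap.BilinForm.baseChange ℝ (form T.toCycles A) (e i) (e j) = _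
        rw [← baseChange_rep q _ c hc.rep, hle, map_smul, LinearMap.smul_apply, hlq, smul_eq_mul]
        split_ifs <;> simp
      have h4 : aeval (c.baseChange ℝ) p x = ∑ i, e.repr x i • sg (l i) • e i := by
        conv_lhs => rw [← e.sum_repr x]
        rw [map_sum]
        exact Finset.sum_congr rfl fun i _ => by rw [map_smul, ht]
      rw [h4, map_sum]
      refine Finset.sum_congr rfl fun i _ => ?_
      have h5 : formR T.toCycles A x (e i) = e.repr x i * l i := by
        conv_lhs => rw [← e.sum_repr x]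
        rw [map_sum, LinearMap.sum_apply, Finset.sum_eq_single i]
        · rw [map_smul, LinearMap.smul_apply, h3, if_pos rfl, smul_eq_mul]
        · intro j _ hj
          rw [map_smul, LinearMap.smul_apply, h3, if_neg hj, smul_zero]
        · intro h
          exact absurd (Finset.mem_univ i) h
      rw [map_smul, map_smul, h5, smul_eq_mul, smul_eq_mul]
      ring
    rw [h2]
    have h1 : e.repr x ≠ 0 := by
      intro h
      exact hx (e.repr.map_eq_zero_iff.1 h)
    obtain ⟨i, hi⟩ := Finsupp.ne_iff.1 h1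
    refine Finset.sum_pos' (fun i _ => mul_nonneg (sq_nonneg _) (sg_mul_pos (hl0 i)).le)
      ⟨i, Finset.mem_univ i, mul_pos (sq_pos_of_ne_zero hi) (sg_mul_pos (hl0 i))⟩

theorem exists_poly (S : Finset ℝ) : ∃ p : ℝ[X], ∀ s ∈ S, p.eval s = sg s := by
  classical
  exact ⟨Lagrange.interpolate S id sg, fun s hs =>
    Lagrange.eval_interpolate_at_node (v := (id : ℝ → ℝ)) sg (Set.injOn_id _) hs⟩

/-- if there is no negative eigenvalue, the form is positive definite -/
theorem form_pos_of_no_neg {A : T.Obj} {q : LinearMap.BilinForm ℚ (T.Z A)}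
    {c : T.Z A →ₗ[ℚ] T.Z A} (hc : Rep A q c)
    (h : ∀ l : ℝ, l < 0 → ∀ x : ℝ ⊗[ℚ] T.Z A, c.baseChange ℝ x = l • x → x = 0)
    (x : ℝ ⊗[ℚ] T.Z A) (hx : x ≠ 0) : 0 < formR T.toCycles A x x := by
  classical
  obtain ⟨n, e, l, hl0, hle, hlq⟩ := exists_eigenbasis hc.pos c hc.symm hc.inj
  have hlpos : ∀ i, 0 < l i := by
    intro i
    by_contra hno
    have h1 : l i < 0 := lt_of_le_of_ne (not_lt.1 hno) (hl0 i)
    exact e.ne_zero i (h (l i) h1 (e i) (hle i))
  have h3 : ∀ i j, formR T.toCycles A (e i) (e j) = if i = j then l i else 0 := by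
    intro i j
    change LinearMap.BilinForm.baseChange ℝ (form T.toCycles A) (e i) (e j) = _
    rw [← baseChange_rep q _ c hc.rep, hle, map_smul, LinearMap.smul_apply, hlq, smul_eq_mul]
    split_ifs <;> simp
  have h2 : formR T.toCycles A x x = ∑ i, (e.repr x i) ^ 2 * l i := by
    conv_lhs => rw [← e.sum_repr x]
    rw [map_sum]
    refine Finset.sum_congr rfl fun i _ => ?_
    rw [map_smul, map_sum, LinearMap.sum_apply, Finset.sum_eq_single i]
    · rw [map_smul, LinearMap.smul_apply, h3, if_pos rfl, smul_eq_mul, smul_eq_mul]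
      ring
    · intro j _ hj
      rw [map_smul, LinearMap.smul_apply, h3, if_neg hj, smul_zero]
    · intro h
      exact absurd (Finset.mem_univ i) h
  rw [h2]
  have h1 : e.repr x ≠ 0 := by
    intro h
    exact hx (e.repr.map_eq_zero_iff.1 h)
  obtain ⟨i, hi⟩ := Finsupp.ne_iff.1 h1
  exact Finset.sum_pos' (fun i _ => mul_nonneg (sq_nonneg _) (hlpos i).le)
    ⟨i, Finset.mem_univ i, mul_pos (sq_pos_of_ne_zero hi) (hlpos i)⟩

theorem HSC_of_form_pos {A : T.Obj} {n : ℕ} (hn : 2 * n ≤ T.dim A)
    (h : ∀ x ∈ T.cod A n, x ≠ 0 → 0 < form T.toCycles A x x) : HSC T.toCycles A n := by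
  intro x hx hx0 hp
  rw [← form_prim_self (T := T.toCycles) A hn hx hp]
  have f2 : (0 : ℚ) < (((T.dim A - 2 * n).factorial : ℕ) : ℚ) := by
    exact_mod_cast (T.dim A - 2 * n).factorial_pos
  exact mul_pos f2 (h x hx hx0)

theorem one_tmul_ne_zero {A : T.Obj} {x : T.Z A} (hx0 : x ≠ 0) : (1 : ℝ) ⊗ₜ[ℚ] x ≠ 0 := by
  intro h0
  have hinj : Function.Injective (fun x : T.Z A => (1 : ℝ) ⊗ₜ[ℚ] x) :=
    Algebra.TensorProduct.includeRight_injective (R := ℚ) (A := ℝ) (B := T.Z A)
      (algebraMap ℚ ℝ).injective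
  exact hx0 (hinj (by simpa using h0))

theorem formR_one_tmul {A : T.Obj} (x : T.Z A) :
    formR T.toCycles A ((1 : ℝ) ⊗ₜ[ℚ] x) ((1 : ℝ) ⊗ₜ[ℚ] x) =
      ((form T.toCycles A x x : ℚ) : ℝ) := by
  change LinearMap.BilinForm.baseChange ℝ (form T.toCycles A) ((1 : ℝ) ⊗ₜ[ℚ] x)
    ((1 : ℝ) ⊗ₜ[ℚ] x) = _
  rw [LinearMap.BilinForm.baseChange_tmul, mul_one, Rat.smul_def, mul_one]

theorem HSC_of_formR_pos {A : T.Obj}
    (h : ∀ x : ℝ ⊗[ℚ] T.Z A, x ≠ 0 → 0 < formR T.toCycles A x x) {n : ℕ}
    (hn : 2 * n ≤ T.dim A) : HSC T.toCycles A n := by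
  refine HSC_of_form_pos hn fun x _ hx0 => ?_
  have h2 := h _ (one_tmul_ne_zero hx0)
  rw [formR_one_tmul] at h2
  exact_mod_cast h2

/-- positivity on the totally primitive classes of codimension at most `m` implies positivity
of the form on all classes of codimension `m` -/
theorem form_pos_of_totPos (A : T.Obj) {m : ℕ}
    (hT : ∀ n ≤ m, 2 * n ≤ T.dim A → TotPos T.toCycles A n) {x : T.Z A}
    (hx : x ∈ T.cod A m) (hx0 : x ≠ 0) : 0 < form T.toCycles A x x := by
  classical
  obtain ⟨q, c, hc⟩ := exists_rep A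
  obtain ⟨n, e, l, hl0, hle, hlq⟩ := exists_eigenbasis hc.pos c hc.symm hc.inj
  set X : ℝ ⊗[ℚ] T.Z A := (1 : ℝ) ⊗ₜ[ℚ] x with hX
  have hXm : (pr A m).baseChange ℝ X = X := by
    rw [hX, LinearMap.baseChange_tmul, pr_cod A m hx, if_pos rfl]
  -- the coordinates for negative eigenvalues vanish
  have hneg : ∀ i, l i < 0 → e.repr X i = 0 := by
    intro i hi
    let S : Finset ℝ := Finset.univ.image l
    let p : ℝ[X] := Lagrange.interpolate S id (fun t => if t = l i then 1 else 0)
    have hp : ∀ j, p.eval (l j) = if l j = l i then 1 else 0 := fun j =>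
      Lagrange.eval_interpolate_at_node (v := (id : ℝ → ℝ)) (fun t => if t = l i then 1 else 0)
        (Set.injOn_id _) (Finset.mem_image_of_mem l (Finset.mem_univ j))
    have hpe : ∀ j, aeval (c.baseChange ℝ) p (e j) = if l j = l i then e j else 0 := by
      intro j
      rw [aeval_eigen _ p (hle j), hp]
      split_ifs
      · rw [one_smul]
      · rw [zero_smul]
    have hY : aeval (c.baseChange ℝ) p X = ∑ j, e.repr X j • (if l j = l i then e j else 0) := by
      conv_lhs => rw [← e.sum_repr X]
      rw [map_sum]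
      exact Finset.sum_congr rfl fun j _ => by rw [map_smul, hpe]
    have hYc : c.baseChange ℝ (aeval (c.baseChange ℝ) p X) =
        l i • aeval (c.baseChange ℝ) p X := by
      rw [hY, map_sum, Finset.smul_sum]
      refine Finset.sum_congr rfl fun j _ => ?_
      rw [map_smul]
      split_ifs with h
      · rw [hle, h, smul_comm]
      · rw [map_zero, smul_zero, smul_zero]
    have hYm : (pr A m).baseChange ℝ (aeval (c.baseChange ℝ) p X) =
        aeval (c.baseChange ℝ) p X := by
      rw [← aeval_intertwine (c.baseChange ℝ) (c.baseChange ℝ) ((pr A m).baseChange ℝ)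
        (fun y => rep_pr A hc m y) p X, hXm]
    have hY0 := no_neg_cod A m hT hc hi _ hYc hYm
    have h1 := congrArg (fun z => e.repr z i) hY0
    simp only [hY, map_zero, Finsupp.coe_zero, Pi.zero_apply] at h1
    rw [map_sum, Finsupp.finsetSum_apply, Finset.sum_eq_single i] at h1
    · rw [if_pos rfl, map_smul, Finsupp.smul_apply, e.repr_self, Finsupp.single_eq_same,
        smul_eq_mul, mul_one] at h1
      exact h1
    · intro j _ hj
      rw [map_smul, Finsupp.smul_apply]
      split_ifs
      · rw [e.repr_self, Finsupp.single_eq_of_ne (by exact hj.symm), smul_zero]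
      · rw [map_zero, Finsupp.zero_apply, smul_zero]
    · intro h
      exact absurd (Finset.mem_univ i) h
  have h3 : ∀ i j, formR T.toCycles A (e i) (e j) = if i = j then l i else 0 := by
    intro i j
    change LinearMap.BilinForm.baseChange ℝ (form T.toCycles A) (e i) (e j) = _
    rw [← baseChange_rep q _ c hc.rep, hle, map_smul, LinearMap.smul_apply, hlq, smul_eq_mul]
    split_ifs <;> simp
  have h2 : formR T.toCycles A X X = ∑ i, (e.repr X i) ^ 2 * l i := by
    conv_lhs => rw [← e.sum_repr X]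
    rw [map_sum]
    refine Finset.sum_congr rfl fun i _ => ?_
    rw [map_smul, map_sum, LinearMap.sum_apply, Finset.sum_eq_single i]
    · rw [map_smul, LinearMap.smul_apply, h3, if_pos rfl, smul_eq_mul, smul_eq_mul]
      ring
    · intro j _ hj
      rw [map_smul, LinearMap.smul_apply, h3, if_neg hj, smul_zero]
    · intro h
      exact absurd (Finset.mem_univ i) h
  have hge : ∀ i, 0 ≤ (e.repr X i) ^ 2 * l i := by
    intro i
    rcases lt_or_ge (l i) 0 with h | h
    · rw [hneg i h]; simp
    · exact mul_nonneg (sq_nonneg _) h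
  have h4 : 0 < formR T.toCycles A X X := by
    rw [h2]
    have h1 : e.repr X ≠ 0 := by
      intro h
      exact one_tmul_ne_zero hx0 (e.repr.map_eq_zero_iff.1 h)
    obtain ⟨i, hi⟩ := Finsupp.ne_iff.1 h1
    refine Finset.sum_pos' (fun i _ => hge i) ⟨i, Finset.mem_univ i, ?_⟩
    have hli : 0 < l i := by
      rcases lt_or_ge (l i) 0 with h | h
      · exact absurd (hneg i h) hi
      · exact lt_of_le_of_ne h (hl0 i).symm
    exact mul_pos (sq_pos_of_ne_zero hi) hli
  rw [hX, formR_one_tmul] at h4
  exact_mod_cast h4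

/-- positivity on the totally primitive classes of codimension at most `N` implies positivity
on all primitive classes of codimension at most `N` -/
theorem HSC_of_totPos (A : T.Obj) {m : ℕ}
    (hT : ∀ n ≤ m, 2 * n ≤ T.dim A → TotPos T.toCycles A n) (hm : 2 * m ≤ T.dim A) :
    HSC T.toCycles A m :=
  HSC_of_form_pos hm fun _ hx hx0 => form_pos_of_totPos A hT hx hx0

end

end Pc0b458i
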