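import Pool.Agent.Lib.Pc0b458t.Rep

/-!
Real extensions of rational forms and the spectral theorem for rational symmetric operators.
-/

open TensorProduct

namespace Pc0b458i

section Spec

variable {V : Type*} [AddCommGroup V] [Module ℚ V] [Module.Finite ℚ V]

theorem baseChange_diag (b : LinearMap.BilinForm ℚ V) (hb : ∀ x y, b x y = b y x) :
    ∃ (v : Module.Basis (Fin (Module.finrank ℚ V)) ℚ V), ∀ x : ℝ ⊗[ℚ] V,
      b.baseChange ℝ x x = ∑ i, ((v.baseChange ℝ).repr x i) ^ 2 * (b (v i) (v i) : ℝ) := by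
  classical
  have : Invertible (2 : ℚ) := invertibleOfNonzero two_ne_zero
  obtain ⟨v, hv⟩ := LinearMap.BilinForm.exists_orthogonal_basis (B := b)
    ⟨fun x y => hb x y⟩
  refine ⟨v, fun x => ?_⟩
  conv_lhs => rw [← (v.baseChange ℝ).sum_repr x]
  rw [map_sum]
  refine Finset.sum_congr rfl fun i _ => ?_
  rw [map_sum, LinearMap.sum_apply, Finset.sum_eq_single i]
  · rw [map_smul, map_smul, LinearMap.smul_apply, Module.Basis.baseChange_apply,
      LinearMap.BilinForm.baseChange_tmul, smul_eq_mul, smul_eq_mul, mul_one, Rat.smul_def,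
      mul_one]
    ring
  · intro j _ hj
    rw [map_smul, map_smul, LinearMap.smul_apply, Module.Basis.baseChange_apply,
      Module.Basis.baseChange_apply, LinearMap.BilinForm.baseChange_tmul]
    have h : b (v j) (v i) = 0 := hv hj
    rw [h, zero_smul, smul_zero, smul_zero]
  · intro h
    exact absurd (Finset.mem_univ i) h

theorem psd_baseChange (b : LinearMap.BilinForm ℚ V) (hb : ∀ x y, b x y = b y x)
    (h : ∀ x, 0 ≤ b x x) (x : ℝ ⊗[ℚ] V) : 0 ≤ b.baseChange ℝ x x := by
  obtain ⟨v, hv⟩ := baseChange_diag b hb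
  rw [hv]
  exact Finset.sum_nonneg fun i _ => mul_nonneg (sq_nonneg _) (by exact_mod_cast h _)

theorem PosForm.baseChange_pos {q : LinearMap.BilinForm ℚ V} (hq : PosForm q)
    (x : ℝ ⊗[ℚ] V) (hx : x ≠ 0) : 0 < q.baseChange ℝ x x := by
  obtain ⟨v, hv⟩ := baseChange_diag q hq.symm
  rw [hv]
  have h1 : (v.baseChange ℝ).repr x ≠ 0 := by
    intro h
    exact hx ((v.baseChange ℝ).repr.map_eq_zero_iff.1 h)
  obtain ⟨i, hi⟩ := Finsupp.ne_iff.1 h1
  refine Finset.sum_pos' (fun i _ => mul_nonneg (sq_nonneg _) ?_) ⟨i, Finset.mem_univ i, ?_⟩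
  · have := hq.pos (v i) (v.ne_zero i)
    exact_mod_cast this.le
  · have := hq.pos (v i) (v.ne_zero i)
    have h2 : (0 : ℝ) < (q (v i) (v i) : ℝ) := by exact_mod_cast this
    exact mul_pos (sq_pos_of_ne_zero hi) h2

omit [Module.Finite ℚ V] in
theorem baseChange_symm (b : LinearMap.BilinForm ℚ V) (hb : ∀ x y, b x y = b y x)
    (x y : ℝ ⊗[ℚ] V) : b.baseChange ℝ x y = b.baseChange ℝ y x :=
  (LinearMap.BilinForm.IsSymm.baseChange ℝ (B₂ := b) ⟨fun x y => hb x y⟩).eq x y

omit [Module.Finite ℚ V] in
theorem baseChange_rep (q b : LinearMap.BilinForm ℚ V) (c : V →ₗ[ℚ] V)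
    (h : ∀ x y, q (c x) y = b x y) (x y : ℝ ⊗[ℚ] V) :
    q.baseChange ℝ (c.baseChange ℝ x) y = b.baseChange ℝ x y := by
  induction x using TensorProduct.induction_on with
  | zero => simp
  | add x x' hx hx' => rw [map_add, map_add, LinearMap.add_apply, hx, hx', map_add,
      LinearMap.add_apply]
  | tmul r v =>
    induction y using TensorProduct.induction_on with
    | zero => simp
    | add y y' hy hy' => rw [map_add, map_add, hy, hy']
    | tmul s w =>
      rw [LinearMap.baseChange_tmul, LinearMap.BilinForm.baseChange_tmul,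
        LinearMap.BilinForm.baseChange_tmul, h]

omit [Module.Finite ℚ V] in
theorem baseChange_selfadj (q : LinearMap.BilinForm ℚ V) (c : V →ₗ[ℚ] V)
    (h : ∀ x y, q (c x) y = q x (c y)) (x y : ℝ ⊗[ℚ] V) :
    q.baseChange ℝ (c.baseChange ℝ x) y = q.baseChange ℝ x (c.baseChange ℝ y) := by
  induction x using TensorProduct.induction_on with
  | zero => simp
  | add x x' hx hx' => rw [map_add, map_add, LinearMap.add_apply, hx, hx', map_add,
      LinearMap.add_apply]
  | tmul r v =>
    induction y using TensorProduct.induction_on with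
    | zero => simp
    | add y y' hy hy' => rw [map_add, map_add, map_add, hy, hy']
    | tmul s w =>
      rw [LinearMap.baseChange_tmul, LinearMap.baseChange_tmul,
        LinearMap.BilinForm.baseChange_tmul, LinearMap.BilinForm.baseChange_tmul, h]

/-- real spectral theorem for a symmetric injective rational operator -/
theorem exists_eigenbasis {q : LinearMap.BilinForm ℚ V} (hq : PosForm q) (c : V →ₗ[ℚ] V)
    (hc : ∀ x y, q (c x) y = q x (c y)) (hinj : Function.Injective c) :
    ∃ (n : ℕ) (e : Module.Basis (Fin n) ℝ (ℝ ⊗[ℚ] V)) (l : Fin n → ℝ), (∀ i, l i ≠ 0) ∧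
      (∀ i, c.baseChange ℝ (e i) = l i • e i) ∧
      (∀ i j, q.baseChange ℝ (e i) (e j) = if i = j then 1 else 0) := by
  classical
  let core : InnerProductSpace.Core ℝ (ℝ ⊗[ℚ] V) :=
    { inner := fun x y => q.baseChange ℝ x y
      conj_inner_symm := fun x y => by
        rw [conj_trivial]; exact baseChange_symm q hq.symm y x
      re_inner_nonneg := fun x => by
        change 0 ≤ q.baseChange ℝ x x
        by_cases hx : x = 0
        · rw [hx, map_zero]
        · exact (hq.baseChange_pos x hx).le
      add_left := fun x y z => by rw [map_add]; rfl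
      smul_left := fun x y r => by rw [map_smul, conj_trivial]; rfl
      definite := fun x hx => by
        by_contra hne
        exact (hq.baseChange_pos x hne).ne' hx }
  let _ : NormedAddCommGroup (ℝ ⊗[ℚ] V) := core.toNormedAddCommGroup
  let _ : InnerProductSpace ℝ (ℝ ⊗[ℚ] V) := InnerProductSpace.ofCore core.toCore
  have hin : ∀ x y : ℝ ⊗[ℚ] V, inner ℝ x y = q.baseChange ℝ x y := fun x y => rfl
  have hs : (c.baseChange ℝ).IsSymmetric := by
    intro x y
    rw [hin, hin]
    exact baseChange_selfadj q c hc x y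
  have hcinj : Function.Injective (c.baseChange ℝ) := by
    have := Module.Flat.lTensor_preserves_injective_linearMap (M := ℝ) c hinj
    exact this
  refine ⟨_, (hs.eigenvectorBasis rfl).toBasis, hs.eigenvalues rfl, fun i h => ?_, fun i => ?_,
    fun i j => ?_⟩
  · have h1 := hs.apply_eigenvectorBasis rfl i
    rw [h] at h1
    have h2 : (c.baseChange ℝ) ((hs.eigenvectorBasis rfl) i) = 0 := by
      rw [h1]; simp
    have h3 := hcinj (h2.trans (map_zero _).symm)
    exact (hs.eigenvectorBasis rfl).toBasis.ne_zero i (by simpa using h3)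
  · rw [OrthonormalBasis.coe_toBasis]
    simp
  · rw [OrthonormalBasis.coe_toBasis, ← hin]
    have := (hs.eigenvectorBasis rfl).orthonormal
    rw [orthonormal_iff_ite] at this
    exact this i j

end Spec

end Pc0b458i
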