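import Mathlib

/-!
# Auxiliary form of the theories

The structures of `Pool.Agent.Lib.Pc0b458t.Defs` in a form convenient for the proofs, with the
Lefschetz correspondences as abstract spaces.  Used in proofs only.
-/

universe u

namespace Pc0b458i

/-- The rings `Z A` of cycle classes modulo numerical equivalence (rational coefficients, all
codimensions together) of the polarised abelian varieties `(A, L)` over a field. -/
structure Cycles where
  /-- the polarised abelian varieties over the base field -/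
  Obj : Type u
  /-- the dimension -/
  dim : Obj → ℕ
  /-- the ring of numerical cycle classes with rational coefficients -/
  Z : Obj → Type u
  [ringZ : ∀ A, CommRing (Z A)]
  [algZ : ∀ A, Algebra ℚ (Z A)]
  [finZ : ∀ A, Module.Finite ℚ (Z A)]
  /-- classes of codimension `n` -/
  cod : ∀ A, ℕ → Submodule ℚ (Z A)
  internal : ∀ A, DirectSum.IsInternal (cod A)
  one_mem : ∀ A, (1 : Z A) ∈ cod A 0
  cod_zero : ∀ A, ∀ x ∈ cod A 0, ∃ r : ℚ, x = algebraMap ℚ (Z A) r
  mul_mem : ∀ A i j (x y : Z A), x ∈ cod A i → y ∈ cod A j → x * y ∈ cod A (i + j)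
  cod_eq_zero : ∀ A i (x : Z A), dim A < i → x ∈ cod A i → x = 0
  /-- the degree of a class of codimension `dim A`, extended by zero -/
  deg : ∀ A, Z A →ₗ[ℚ] ℚ
  deg_eq_zero : ∀ A i (x : Z A), i ≠ dim A → x ∈ cod A i → deg A x = 0
  /-- numerically trivial classes are zero -/
  num_eq : ∀ A i j (x : Z A), i + j = dim A → x ∈ cod A i →
    (∀ y ∈ cod A j, deg A (x * y) = 0) → x = 0
  /-- the class of the polarisation -/
  L : ∀ A, Z A
  L_mem : ∀ A, L A ∈ cod A 1
  L_pos : ∀ A, 0 < deg A (L A ^ dim A)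
  /-- the hard Lefschetz theorem -/
  hl_inj : ∀ A n, 2 * n ≤ dim A → ∀ x ∈ cod A n, L A ^ (dim A - 2 * n) * x = 0 → x = 0
  hl_surj : ∀ A n, 2 * n ≤ dim A → ∀ y ∈ cod A (dim A - n),
    ∃ x ∈ cod A n, L A ^ (dim A - 2 * n) * x = y
  /-- the Lefschetz star operator of the polarisation -/
  star : ∀ A, Z A →ₗ[ℚ] Z A
  star_prim : ∀ A m a (z : Z A), 2 * m + a ≤ dim A → z ∈ cod A m →
    L A ^ (dim A - 2 * m + 1) * z = 0 →
    star A (L A ^ a * z) =
      ((-1) ^ m * (a.factorial : ℚ) / ((dim A - 2 * m - a).factorial : ℚ)) •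
        (L A ^ (dim A - 2 * m - a) * z)

attribute [instance] Cycles.ringZ Cycles.algZ Cycles.finZ

/-- The Lefschetz correspondences between polarised abelian varieties: the linear combinations
of intersections of divisor classes on `A × B`, modulo numerical equivalence, of all degrees,
with their composition, their action on cycle classes, the adjoint `dag u` (the transpose of
`u`, composed on both sides with the Lefschetz star operators; it is adjoint to `u` for the
Lefschetz forms `deg (x * star y)`), and the trace on the `ℓ`-adic cohomology of `A`. -/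
structure LefTheory extends Cycles.{u} where
  /-- Lefschetz correspondences from `A` to `B` -/
  Cor : Obj → Obj → Type u
  [grpC : ∀ A B, AddCommGroup (Cor A B)]
  [modC : ∀ A B, Module ℚ (Cor A B)]
  [finC : ∀ A B, Module.Finite ℚ (Cor A B)]
  /-- composition -/
  comp : ∀ {A B C}, Cor B C →ₗ[ℚ] Cor A B →ₗ[ℚ] Cor A C
  comp_assoc : ∀ {A B C D} (w : Cor C D) (v : Cor B C) (u : Cor A B),
    comp (comp w v) u = comp w (comp v u)
  /-- the identity of `A` -/
  one : ∀ A, Cor A A
  /-- the action on cycle classes -/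
  act : ∀ {A B}, Cor A B →ₗ[ℚ] Z A →ₗ[ℚ] Z B
  act_one : ∀ A x, act (one A) x = x
  act_comp : ∀ {A B C} (v : Cor B C) (u : Cor A B) x, act (comp v u) x = act v (act u x)
  /-- the adjoint -/
  dag : ∀ {A B}, Cor A B →ₗ[ℚ] Cor B A
  dag_dag : ∀ {A B} (u : Cor A B), dag (dag u) = u
  dag_comp : ∀ {A B C} (v : Cor B C) (u : Cor A B), dag (comp v u) = comp (dag u) (dag v)
  act_dag : ∀ {A B} (u : Cor A B) x y,
    deg B (act u x * star B y) = deg A (x * star A (act (dag u) y))
  /-- the trace -/
  tr : ∀ {A}, Cor A A →ₗ[ℚ] ℚ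
  tr_comm : ∀ {A B} (v : Cor B A) (u : Cor A B), tr (comp v u) = tr (comp u v)
  tr_dag : ∀ {A} (u : Cor A A), tr (dag u) = tr u
  /-- positivity (Milne: the Hodge standard conjecture for Lefschetz classes) -/
  tr_pos : ∀ {A B} (u : Cor A B), u ≠ 0 → 0 < tr (comp (dag u) u)
  /-- multiplication by a divisor class is a Lefschetz correspondence -/
  cor_div : ∀ A, ∀ D ∈ cod A 1, ∃ u : Cor A A, ∀ x, act u x = D * x
  /-- the projection to the classes of codimension `n` is a Lefschetz correspondence -/
  cor_proj : ∀ A n, ∃ u : Cor A A, ∀ i, ∀ x ∈ cod A i, act u x = if i = n then x else 0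

attribute [instance] LefTheory.grpC LefTheory.modC LefTheory.finC

/-- Further properties of polarised abelian varieties over an algebraic closure of a finite
field: products, homomorphisms, and (Tate, Milne) the commutant of the Lefschetz
correspondences. -/
structure FpTheory extends LefTheory.{u} where
  /-- products, with the product polarisation -/
  prod : Obj → Obj → Obj
  p₁ : ∀ {A B}, Z A →ₐ[ℚ] Z (prod A B)
  p₂ : ∀ {A B}, Z B →ₐ[ℚ] Z (prod A B)
  dim_prod : ∀ A B, dim (prod A B) = dim A + dim B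
  L_prod : ∀ A B, L (prod A B) = p₁ (L A) + p₂ (L B)
  deg_prod : ∀ {A B} (x : Z A) (y : Z B), deg (prod A B) (p₁ x * p₂ y) = deg A x * deg B y
  star_prod : ∀ {A B} (x : Z A) (y : Z B),
    star (prod A B) (p₁ x * p₂ y) = p₁ (star A x) * p₂ (star B y)
  /-- exterior products of correspondences -/
  box : ∀ A B, Set (Cor (prod A B) (prod A B))
  box_apply : ∀ {A B}, ∀ w ∈ box A B, ∃ (u : Cor A A) (v : Cor B B), ∀ x y,
    act w (p₁ x * p₂ y) = p₁ (act u x) * p₂ (act v y)
  box_exists : ∀ {A B} (u : Cor A A) (v : Cor B B), ∃ w ∈ box A B, ∀ x y,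
    act w (p₁ x * p₂ y) = p₁ (act u x) * p₂ (act v y)
  /-- homomorphisms `A → B` and the pull-back of cycle classes -/
  Hom : Obj → Obj → Type u
  pull : ∀ {A B}, Hom A B → (Z B →ₐ[ℚ] Z A)
  /-- the pull-back along a homomorphism is a Lefschetz correspondence -/
  cor_pull : ∀ {A B} (f : Hom A B), ∃ u : Cor B A, ∀ x, act u x = pull f x
  /-- the diagonal `A → A × A` -/
  diag : ∀ A, Hom A (prod A A)
  pull_diag : ∀ A (x y : Z A), pull (diag A) (p₁ x * p₂ y) = x * y
  /-- an endomorphism of `Z A` which commutes with the Lefschetz correspondences is a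
  Lefschetz correspondence -/
  commutant : ∀ A (c : Z A →ₗ[ℚ] Z A), (∀ (u : Cor A A) x, c (act u x) = act u (c x)) →
    ∃ u : Cor A A, ∀ x, act u x = c x
  /-- an endomorphism of `Z (A × B)` which commutes with the exterior products of Lefschetz
  correspondences on `A` and `B` is a linear combination of such exterior products -/
  commutant_prod : ∀ A B (c : Z (prod A B) →ₗ[ℚ] Z (prod A B)),
    (∀ w ∈ box A B, ∀ x, c (act w x) = act w (c x)) →
    c ∈ Submodule.span ℚ {a | ∃ w ∈ box A B, a = act w}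

/-- positivity of the form `(-1)^n x.x.L^(g-2n)` on the nonzero primitive classes of
codimension `n` on `A`, where `g = dim A` -/
def HSC (T : Cycles.{u}) (A : T.Obj) (n : ℕ) : Prop :=
  ∀ x ∈ T.cod A n, x ≠ 0 → T.L A ^ (T.dim A - 2 * n + 1) * x = 0 →
    0 < (-1) ^ n * T.deg A (x * x * T.L A ^ (T.dim A - 2 * n))

/-- positivity of `(-1)^n x.x.L^(g-2n)` for the nonzero classes `x` of codimension `n` on `A`
such that `D.L^(g-2n).x = 0` for all divisor classes `D` -/
def TotPos (T : Cycles.{u}) (A : T.Obj) (n : ℕ) : Prop :=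
  ∀ x ∈ T.cod A n, x ≠ 0 → (∀ D ∈ T.cod A 1, D * (T.L A ^ (T.dim A - 2 * n) * x) = 0) →
    0 < (-1) ^ n * T.deg A (x * x * T.L A ^ (T.dim A - 2 * n))

end Pc0b458i
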