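import Pool.Agent.Lib.Pc0b458t.Spec

/-!
Positivity on the totally primitive classes implies that the representing operator has no
negative eigenvalues.
-/

open TensorProduct

universe u

namespace Pc0b458i

theorem HSC.totPos {T : Cycles.{u}} {A : T.Obj} {n : ℕ} (h : HSC T A n) : TotPos T A n := by
  intro x hx hx0 hD
  refine h x hx hx0 ?_
  rw [pow_succ', mul_assoc]
  exact hD _ (T.L_mem A)

/-- in codimension zero there is nothing to prove -/
theorem totPos_zero (T : Cycles.{u}) (A : T.Obj) : TotPos T A 0 := by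
  intro x hx hx0 _
  obtain ⟨r, rfl⟩ := T.cod_zero A x hx
  have hr : r ≠ 0 := by
    rintro rfl
    exact hx0 (map_zero _)
  have h1 : algebraMap ℚ (T.Z A) r * algebraMap ℚ (T.Z A) r * T.L A ^ (T.dim A - 2 * 0) =
      (r * r) • T.L A ^ T.dim A := by
    rw [← map_mul, Algebra.smul_def, Nat.mul_zero, Nat.sub_zero]
  rw [h1, map_smul, smul_eq_mul, pow_zero, one_mul]
  exact mul_pos (mul_self_pos.2 hr) (T.L_pos A)

/-- totally primitive divisor classes are zero -/
theorem totPos_one (T : Cycles.{u}) (A : T.Obj) (h2 : 2 * 1 ≤ T.dim A) : TotPos T A 1 := by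
  intro x hx hx0 h
  exfalso
  apply hx0
  refine T.hl_inj A 1 h2 x hx ?_
  refine T.num_eq A (T.dim A - 1) 1 _ (by omega)
    (Cycles.L_pow_mul_mem A hx (by omega)) fun y hy => ?_
  rw [mul_comm, h y hy, map_zero]

variable {T : LefTheory.{u}}

/-- the lowering operator of a divisor class -/
noncomputable def low (A : T.Obj) (D : T.Z A) : T.Z A →ₗ[ℚ] T.Z A :=
  T.star A ∘ₗ LinearMap.mulLeft ℚ D ∘ₗ T.star A

theorem low_apply (A : T.Obj) (D x : T.Z A) :
    low A D x = T.star A (D * T.star A x) := rfl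

theorem low_cor (A : T.Obj) {D : T.Z A} (hD : D ∈ T.cod A 1) :
    ∃ u : T.Cor A A, ∀ x, T.act u x = low A D x := by
  obtain ⟨u, hu⟩ := T.cor_div A D hD
  refine ⟨T.dag u, fun x => ?_⟩
  have h1 : D * T.star A x - T.star A (T.act (T.dag u) x) = 0 := by
    refine deg_nondeg A fun y => ?_
    rw [mul_sub, map_sub, sub_eq_zero]
    have h2 := T.act_dag u y x
    rw [hu] at h2
    rw [← h2]
    congr 1
    ring
  rw [low_apply, sub_eq_zero.1 h1, star_star (T := T.toCycles)]

theorem low_mem (A : T.Obj) {D : T.Z A} (hD : D ∈ T.cod A 1) {n : ℕ} {x : T.Z A}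
    (hx : x ∈ T.cod A (n + 1)) : low A D x ∈ T.cod A n := by
  rcases Nat.lt_or_ge (T.dim A) (n + 1) with h | h
  · rw [T.cod_eq_zero A _ x h hx, map_zero]
    exact Submodule.zero_mem _
  · rw [low_apply]
    have h1 := star_mem (T := T.toCycles) A h hx
    have h2 : D * T.star A x ∈ T.cod A (T.dim A - n) :=
      Cycles.mul_mem' (T := T.toCycles) A hD h1 (by omega)
    have h3 := star_mem (T := T.toCycles) A (by omega : T.dim A - n ≤ T.dim A) h2
    have e : T.dim A - (T.dim A - n) = n := by omega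
    rwa [e] at h3

theorem low_zero (A : T.Obj) {D : T.Z A} (hD : D ∈ T.cod A 1) {x : T.Z A}
    (hx : x ∈ T.cod A 0) : low A D x = 0 := by
  rw [low_apply]
  have h1 := star_mem (T := T.toCycles) A (Nat.zero_le _) hx
  have h2 : D * T.star A x = 0 := T.cod_eq_zero A (1 + (T.dim A - 0)) _ (by omega)
    (T.mul_mem A _ _ _ _ hD h1)
  rw [h2, map_zero]

theorem pr_low (A : T.Obj) {D : T.Z A} (hD : D ∈ T.cod A 1) (k n : ℕ) (hkn : k + 1 ≠ n)
    (x : T.Z A) : pr A k (low A D (pr A n x)) = 0 := by
  rcases n with _ | n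
  · rw [low_zero A hD (pr_mem A 0 x), map_zero]
  · rw [pr_cod A k (low_mem A hD (pr_mem A (n + 1) x)), if_neg (by omega)]

theorem low_linear (A : T.Obj) (D D' x : T.Z A) :
    low A (D + D') x = low A D x + low A D' x := by
  rw [low_apply, low_apply, low_apply, add_mul, map_add]

theorem low_smul (A : T.Obj) (r : ℚ) (D x : T.Z A) :
    low A (r • D) x = r • low A D x := by
  rw [low_apply, low_apply, smul_mul_assoc, map_smul]

/-- classes killed by all lowering operators are positive if the totally primitive ones are -/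
theorem form_pos_of_low (A : T.Obj) {n : ℕ} (hT : 2 * n ≤ T.dim A → TotPos T.toCycles A n)
    {x : T.Z A} (hx : x ∈ T.cod A n) (hx0 : x ≠ 0)
    (h : ∀ D ∈ T.cod A 1, low A D x = 0) : 0 < form T.toCycles A x x := by
  have h1 : ∀ D ∈ T.cod A 1, D * T.star A x = 0 := by
    intro D hD
    have h2 := congrArg (T.star A) (h D hD)
    rwa [low_apply, star_star (T := T.toCycles), map_zero] at h2
  rcases prim_of_star (T := T.toCycles) A hx (h1 _ (T.L_mem A)) with ⟨hn, hp⟩ | h2
  · have hs := star_prim0 (T := T.toCycles) A hn hx hp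
    have f2 : (0 : ℚ) < (((T.dim A - 2 * n).factorial : ℕ) : ℚ) := by
      exact_mod_cast (T.dim A - 2 * n).factorial_pos
    have h3 : ∀ D ∈ T.cod A 1, D * (T.L A ^ (T.dim A - 2 * n) * x) = 0 := by
      intro D hD
      have h4 := h1 D hD
      rw [hs, mul_smul_comm] at h4
      rcases smul_eq_zero.1 h4 with h5 | h5
      · exfalso
        revert h5
        positivity
      · exact h5
    have h6 := hT hn x hx hx0 h3
    rw [← form_prim_self (T := T.toCycles) A hn hx hp] at h6
    exact (mul_pos_iff_of_pos_left f2).1 h6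
  · exact absurd h2 hx0

theorem baseChange_compl {V W : Type*} [AddCommGroup V] [Module ℚ V] [AddCommGroup W]
    [Module ℚ W] (b : LinearMap.BilinForm ℚ V) (j : W →ₗ[ℚ] V) (x y : ℝ ⊗[ℚ] W) :
    LinearMap.BilinForm.baseChange ℝ (LinearMap.compl₁₂ b j j) x y =
      LinearMap.BilinForm.baseChange ℝ b (j.baseChange ℝ x) (j.baseChange ℝ y) := by
  induction x using TensorProduct.induction_on with
  | zero => simp
  | add x x' hx hx' => rw [map_add, map_add, map_add, LinearMap.add_apply, hx, hx',
      LinearMap.add_apply]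
  | tmul r v =>
    induction y using TensorProduct.induction_on with
    | zero => simp
    | add y y' hy hy' => rw [map_add, map_add, map_add, hy, hy']
    | tmul s w =>
      rw [LinearMap.baseChange_tmul, LinearMap.baseChange_tmul,
        LinearMap.BilinForm.baseChange_tmul, LinearMap.BilinForm.baseChange_tmul]
      rfl

theorem flat_range {V W : Type*} [AddCommGroup V] [Module ℚ V] [AddCommGroup W] [Module ℚ W]
    (f : V →ₗ[ℚ] W) (y : ℝ ⊗[ℚ] V) (h : f.baseChange ℝ y = 0) :
    ∃ y' : ℝ ⊗[ℚ] (LinearMap.ker f), (LinearMap.ker f).subtype.baseChange ℝ y' = y :=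
  (Module.Flat.lTensor_exact ℝ (LinearMap.exact_subtype_ker_map f) y).1 h

theorem baseChange_comp_apply {V W X : Type*} [AddCommGroup V] [Module ℚ V] [AddCommGroup W]
    [Module ℚ W] [AddCommGroup X] [Module ℚ X] (g : W →ₗ[ℚ] X) (f : V →ₗ[ℚ] W)
    (x : ℝ ⊗[ℚ] V) : (g ∘ₗ f).baseChange ℝ x = g.baseChange ℝ (f.baseChange ℝ x) := by
  rw [LinearMap.baseChange_comp]; rfl

theorem pi_baseChange {V W ι : Type*} [AddCommGroup V] [Module ℚ V] [AddCommGroup W]
    [Module ℚ W] [Fintype ι] [DecidableEq ι] (g : ι → V →ₗ[ℚ] W) (x : ℝ ⊗[ℚ] V)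
    (h : ∀ i, (g i).baseChange ℝ x = 0) : (LinearMap.pi g).baseChange ℝ x = 0 := by
  have h1 : LinearMap.pi g = ∑ i, (LinearMap.single ℚ (fun _ : ι => W) i) ∘ₗ g i := by
    ext v j
    simp [Pi.single_apply]
  have h2 : (LinearMap.pi g).baseChange ℝ =
      ∑ i, ((LinearMap.single ℚ (fun _ : ι => W) i) ∘ₗ g i).baseChange ℝ := by
    rw [h1]
    exact map_sum (LinearMap.baseChangeHom ℚ ℝ V (ι → W)) _ _
  rw [h2, LinearMap.sum_apply]
  refine Finset.sum_eq_zero fun i _ => ?_
  rw [baseChange_comp_apply, h i, map_zero]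

/-- if the totally primitive classes of codimension at most `m` are positive, then the
representing operator has no eigenvector of codimension `m` with negative eigenvalue -/
theorem no_neg_cod (A : T.Obj) (m : ℕ)
    (hT : ∀ n ≤ m, 2 * n ≤ T.dim A → TotPos T.toCycles A n)
    {q : LinearMap.BilinForm ℚ (T.Z A)} {c : T.Z A →ₗ[ℚ] T.Z A} (hc : Rep A q c)
    {l : ℝ} (hl : l < 0) (x : ℝ ⊗[ℚ] T.Z A) (hx : c.baseChange ℝ x = l • x)
    (hxm : (pr A m).baseChange ℝ x = x) : x = 0 := by
  classical
  -- the real extension of the projections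
  have hsum : ∀ x : ℝ ⊗[ℚ] T.Z A,
      ∑ n ∈ Finset.range (T.dim A + 1), (pr A n).baseChange ℝ x = x := by
    intro x
    induction x using TensorProduct.induction_on with
    | zero => simp
    | add x x' hx hx' => simp only [map_add, Finset.sum_add_distrib, hx, hx']
    | tmul r v =>
      simp only [LinearMap.baseChange_tmul]
      rw [← TensorProduct.tmul_sum, sum_pr]
  -- operators in the image of the correspondences commute with `c`
  have hcomm : ∀ (u : T.Cor A A) (x : ℝ ⊗[ℚ] T.Z A), c.baseChange ℝ x = l • x →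
      c.baseChange ℝ ((T.act u).baseChange ℝ x) = l • (T.act u).baseChange ℝ x := by
    intro u x hx
    rw [← baseChange_comp_apply, ← map_smul, ← hx, ← baseChange_comp_apply]
    congr 2
    exact LinearMap.ext fun z => hc.comm u z
  by_contra hx0
  -- the lowest degree
  have hex : ∃ n, ∃ x : ℝ ⊗[ℚ] T.Z A, c.baseChange ℝ x = l • x ∧
      (pr A n).baseChange ℝ x ≠ 0 := ⟨m, x, hx, by rwa [hxm]⟩
  have hle : Nat.find hex ≤ m := Nat.find_min' hex ⟨x, hx, by rwa [hxm]⟩
  have hn := Nat.find_spec hex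
  have hmin := fun k (hk : k < Nat.find hex) => Nat.find_min hex hk
  set n := Nat.find hex with hndef
  obtain ⟨x₁, hx₁, hy0⟩ := hn
  set y := (pr A n).baseChange ℝ x₁ with hy
  have hyc : c.baseChange ℝ y = l • y := hcomm _ x₁ hx₁
  have hprpr : ∀ z : T.Z A, pr A n (pr A n z) = pr A n z := fun z => by
    rw [pr_cod A n (pr_mem A n z), if_pos rfl]
  have hyy : (pr A n).baseChange ℝ y = y := by
    rw [hy, ← baseChange_comp_apply]
    congr 2
    exact LinearMap.ext hprpr
  -- `y` is killed by the lowering operators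
  have hlow : ∀ D ∈ T.cod A 1, (low A D).baseChange ℝ y = 0 := by
    intro D hD
    obtain ⟨u, hu⟩ := low_cor A hD
    have hu' : T.act u = low A D := LinearMap.ext hu
    rw [← hsum ((low A D).baseChange ℝ y)]
    refine Finset.sum_eq_zero fun k _ => ?_
    by_cases hk : k + 1 = n
    · have h1 := hmin k (by omega)
      push Not at h1
      refine h1 _ ?_
      rw [← hu']
      exact hcomm u y hyc
    · rw [← hyy, ← baseChange_comp_apply, ← baseChange_comp_apply]
      have h2 : (pr A k ∘ₗ low A D) ∘ₗ pr A n = 0 :=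
        LinearMap.ext fun z => pr_low A hD k n hk z
      rw [h2, LinearMap.baseChange_zero, LinearMap.zero_apply]
  -- the rational space of classes of codimension `n` killed by the lowering operators
  let v := Module.finBasis ℚ (T.cod A 1)
  let g : Option (Fin (Module.finrank ℚ (T.cod A 1))) → T.Z A →ₗ[ℚ] T.Z A := fun j =>
    match j with
    | none => LinearMap.id - pr A n
    | some i => low A (v i : T.Z A)
  let f : T.Z A →ₗ[ℚ] (Option (Fin (Module.finrank ℚ (T.cod A 1))) → T.Z A) := LinearMap.pi g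
  have hfy : f.baseChange ℝ y = 0 := by
    refine pi_baseChange g y fun j => ?_
    match j with
    | none =>
      change (LinearMap.id - pr A n).baseChange ℝ y = 0
      rw [LinearMap.baseChange_sub, LinearMap.sub_apply, hyy, LinearMap.baseChange_id]
      exact sub_self y
    | some i => exact hlow _ (v i).2
  obtain ⟨y', hy'⟩ := flat_range f y hfy
  have hpsd := psd_baseChange (LinearMap.compl₁₂ (form T.toCycles A) (LinearMap.ker f).subtype
    (LinearMap.ker f).subtype) (fun x y => form_symm (T := T.toCycles) A _ _) (fun x => ?_) y'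
  · rw [baseChange_compl, hy', ← baseChange_rep q _ c hc.rep, hyc, map_smul,
      LinearMap.smul_apply, smul_eq_mul] at hpsd
    have h3 := hc.pos.baseChange_pos y hy0
    nlinarith
  · by_cases hx0 : (x : T.Z A) = 0
    · rw [LinearMap.compl₁₂_apply]
      simp [hx0]
    · have h4 : f x = 0 := x.2
      have h5 : ∀ i, low A (v i : T.Z A) (x : T.Z A) = 0 := fun i => congrFun h4 (some i)
      have h6 : (x : T.Z A) - pr A n (x : T.Z A) = 0 := congrFun h4 none
      have h7 : (x : T.Z A) ∈ T.cod A n := by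
        rw [sub_eq_zero.1 h6]; exact pr_mem A n _
      refine (form_pos_of_low A (hT n hle) h7 hx0 fun D hD => ?_).le
      have h8 : D = ∑ i, v.repr ⟨D, hD⟩ i • (v i : T.Z A) := by
        have h81 := congrArg Subtype.val (v.sum_repr ⟨D, hD⟩)
        refine h81.symm.trans ?_
        rw [Submodule.coe_sum]
        rfl
      rw [h8]
      have h9 : ∀ s : Finset (Fin (Module.finrank ℚ (T.cod A 1))),
          low A (∑ i ∈ s, v.repr ⟨D, hD⟩ i • (v i : T.Z A)) (x : T.Z A) = 0 := by
        intro s
        induction s using Finset.induction_on with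
        | empty => rw [Finset.sum_empty, low_apply, zero_mul, map_zero]
        | insert a s ha ih => rw [Finset.sum_insert ha, low_linear, ih, low_smul, h5, smul_zero,
            add_zero]
      exact h9 _

theorem sum_pr_baseChange (A : T.Obj) (x : ℝ ⊗[ℚ] T.Z A) :
    ∑ n ∈ Finset.range (T.dim A + 1), (pr A n).baseChange ℝ x = x := by
  induction x using TensorProduct.induction_on with
  | zero => simp
  | add x x' hx hx' => simp only [map_add, Finset.sum_add_distrib, hx, hx']
  | tmul r v =>
    simp only [LinearMap.baseChange_tmul]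
    rw [← TensorProduct.tmul_sum, sum_pr]

theorem rep_pr (A : T.Obj) {q : LinearMap.BilinForm ℚ (T.Z A)} {c : T.Z A →ₗ[ℚ] T.Z A}
    (hc : Rep A q c) (m : ℕ) (x : ℝ ⊗[ℚ] T.Z A) :
    c.baseChange ℝ ((pr A m).baseChange ℝ x) = (pr A m).baseChange ℝ (c.baseChange ℝ x) := by
  rw [← baseChange_comp_apply, ← baseChange_comp_apply]
  congr 2
  exact LinearMap.ext fun z => hc.comm _ z

theorem pr_pr_baseChange (A : T.Obj) (m : ℕ) (x : ℝ ⊗[ℚ] T.Z A) :
    (pr A m).baseChange ℝ ((pr A m).baseChange ℝ x) = (pr A m).baseChange ℝ x := by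
  rw [← baseChange_comp_apply]
  congr 2
  exact LinearMap.ext fun z => by
    rw [LinearMap.comp_apply, pr_cod A m (pr_mem A m z), if_pos rfl]

/-- if the totally primitive classes are positive, then the representing operator has no
negative eigenvalue -/
theorem no_neg (A : T.Obj) (hT : ∀ n, 2 * n ≤ T.dim A → TotPos T.toCycles A n)
    {q : LinearMap.BilinForm ℚ (T.Z A)} {c : T.Z A →ₗ[ℚ] T.Z A} (hc : Rep A q c)
    {l : ℝ} (hl : l < 0) (x : ℝ ⊗[ℚ] T.Z A) (hx : c.baseChange ℝ x = l • x) : x = 0 := by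
  rw [← sum_pr_baseChange A x]
  refine Finset.sum_eq_zero fun m _ => ?_
  refine no_neg_cod A m (fun n _ => hT n) hc hl _ ?_ (pr_pr_baseChange A m x)
  rw [rep_pr A hc, hx, map_smul]

end Pc0b458i
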